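import Pool.Agent.Lib.MP_4075bc_lc.Defs

namespace Pool.Agent.Lib.EC4075

/-- A `K`-map into `G`: all sets `c ≤ a` lie in `K`. -/
def KMap {M G : Type} [LE G] (K : Set (Set M)) (c : M → G) : Prop :=
  ∀ a : G, {z | c z ≤ a} ∈ K

theorem exists_map {M G : Type} [Lattice G] [BoundedOrder G] [Finite G] {K : Set (Set M)}
    {S : G → Set M} (hS : IsHom K S) : ∃ c : M → G, ∀ z a, z ∈ S a ↔ c z ≤ a := by
  classical
  obtain ⟨_, hT, hI⟩ := hS
  have := Fintype.ofFinite G
  have hmono : ∀ a b : G, a ≤ b → S a ⊆ S b := by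
    intro a b hab
    have := hI a b
    rw [inf_eq_left.2 hab] at this
    rw [this]
    exact Set.inter_subset_right
  refine ⟨fun z => (Finset.univ.filter (fun a => z ∈ S a)).inf id, fun z a => ⟨fun h => ?_, fun h => ?_⟩⟩
  · exact Finset.inf_le (f := id) (by simpa using h)
  · apply hmono _ _ h
    apply Finset.inf_induction (p := fun a => z ∈ S a)
    · rw [hT]; trivial
    · intro a ha b hb
      rw [hI]; exact ⟨ha, hb⟩
    · intro b hb
      simpa using hb

theorem mem_T {M G : Type} [Lattice G] {S : G → Set M} {c : M → G}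
    (hc : ∀ z a, z ∈ S a ↔ c z ≤ a) (z : M) (a : G) : z ∈ T S a ↔ c z = a := by
  unfold T
  simp only [Set.mem_sdiff, Set.mem_iUnion, Set.mem_ofPred_eq, exists_prop, not_exists, not_and]
  constructor
  · rintro ⟨h1, h2⟩
    rcases eq_or_lt_of_le ((hc z a).1 h1) with h | h
    · exact h
    · exact absurd ((hc z (c z)).2 le_rfl) (h2 _ h)
  · rintro rfl
    refine ⟨(hc z _).2 le_rfl, fun b hb hzb => ?_⟩
    exact absurd ((hc z b).1 hzb) (not_le_of_gt hb)

theorem mem_part {M G : Type} [Lattice G] {k : ℕ} {f : G → Fin k} {S : G → Set M} {c : M → G}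
    (hc : ∀ z a, z ∈ S a ↔ c z ≤ a) (z : M) (i : Fin k) : z ∈ part f S i ↔ f (c z) = i := by
  unfold part
  simp only [Set.mem_iUnion, Set.mem_ofPred_eq, exists_prop, mem_T hc]
  constructor
  · rintro ⟨a, h1, h2⟩
    rw [h2]; exact h1
  · intro h
    exact ⟨_, h, rfl⟩

theorem hom_of_map {M G : Type} [Lattice G] [BoundedOrder G] {K : Set (Set M)} {c : M → G}
    (hc : KMap K c) : IsHom K (fun a => {z | c z ≤ a}) := by
  refine ⟨hc, ?_, ?_⟩
  · ext z; simp
  · intro a b; ext z; simp

theorem cls_subset_iff {M G G' : Type} [Lattice G] [BoundedOrder G] [Finite G]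
    [Lattice G'] [BoundedOrder G'] [Finite G'] {k : ℕ} {K : Set (Set M)} {f : G → Fin k}
    {f' : G' → Fin k} :
    Cls K f ⊆ Cls K f' ↔
      ∀ c : M → G, KMap K c → ∃ c' : M → G', KMap K c' ∧ ∀ z, f' (c' z) = f (c z) := by
  constructor
  · intro h c hc
    have h1 : part f (fun a => {z | c z ≤ a}) ∈ Cls K f := ⟨_, hom_of_map hc, rfl⟩
    obtain ⟨S', hS', hp⟩ := h h1
    obtain ⟨c', hc'⟩ := exists_map hS'
    refine ⟨c', ?_, fun z => ?_⟩
    · intro a
      have : {z | c' z ≤ a} = S' a := by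
        ext z; exact (hc' z a).symm
      rw [this]; exact hS'.1 a
    · have h2 : z ∈ part f (fun a => {z | c z ≤ a}) (f (c z)) :=
        (mem_part (c := c) (fun _ _ => Iff.rfl) z _).2 rfl
      rw [← hp] at h2
      exact (mem_part hc' z _).1 h2
  · rintro h A ⟨S, hS, rfl⟩
    obtain ⟨c, hc⟩ := exists_map hS
    have hcK : KMap K c := by
      intro a
      have : {z | c z ≤ a} = S a := by
        ext z; exact (hc z a).symm
      rw [this]; exact hS.1 a
    obtain ⟨c', hc', h3⟩ := h c hcK
    refine ⟨_, hom_of_map hc', ?_⟩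
    funext i
    ext z
    have e1 : z ∈ part f' (fun a => {z | c' z ≤ a}) i ↔ f' (c' z) = i :=
      mem_part (S := fun a => {z | c' z ≤ a}) (c := c') (fun _ _ => Iff.rfl) z i
    rw [e1, mem_part hc, h3]

/-- Selection principle for the relation `A` between the finite lattices `G` and `G'`. -/
def Sel {M : Type} (K : Set (Set M)) {G G' : Type} [Preorder G] [Preorder G']
    (A : G → G' → Prop) : Prop :=
  (∀ c : M → G, KMap K c → ∃ c' : M → G', KMap K c' ∧ ∀ z, A (c z) (c' z)) →
    ∃ h : G → G', Monotone h ∧ ∀ x, A x (h x)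

section
variable {M : Type} {K : Set (Set M)}

theorem finset_biUnion_mem (h0 : ∅ ∈ K) (hU : ∀ A ∈ K, ∀ B ∈ K, A ∪ B ∈ K) {ι : Type}
    (s : Finset ι) (F : ι → Set M) (hF : ∀ i ∈ s, F i ∈ K) : (⋃ i ∈ s, F i) ∈ K := by
  classical
  induction s using Finset.induction_on with
  | empty => simpa using h0
  | insert a s ha ih =>
    rw [Finset.set_biUnion_insert]
    exact hU _ (hF a (Finset.mem_insert_self a s)) _
      (ih (fun i hi => hF i (Finset.mem_insert_of_mem hi)))

theorem finset_biInter_mem (h1 : Set.univ ∈ K) (hI : ∀ A ∈ K, ∀ B ∈ K, A ∩ B ∈ K) {ι : Type}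
    (s : Finset ι) (F : ι → Set M) (hF : ∀ i ∈ s, F i ∈ K) : (⋂ i ∈ s, F i) ∈ K := by
  classical
  induction s using Finset.induction_on with
  | empty => simpa using h1
  | insert a s ha ih =>
    rw [Finset.set_biInter_insert]
    exact hI _ (hF a (Finset.mem_insert_self a s)) _
      (ih (fun i hi => hF i (Finset.mem_insert_of_mem hi)))

/-- Down-sets: for a `K`-map `c` into a finite order and a down-set `D`, `{c ∈ D} ∈ K`. -/
theorem KMap.lower (h0 : ∅ ∈ K) (hU : ∀ A ∈ K, ∀ B ∈ K, A ∪ B ∈ K) {G : Type} [Preorder G]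
    [Finite G] {c : M → G} (hc : KMap K c) {D : Set G} (hD : IsLowerSet D) :
    {z | c z ∈ D} ∈ K := by
  classical
  have := Fintype.ofFinite G
  have : {z | c z ∈ D} = ⋃ a ∈ (Finset.univ.filter (fun a => a ∈ D)), {z | c z ≤ a} := by
    ext z
    simp only [Set.mem_ofPred_eq, Finset.mem_filter, Finset.mem_univ, true_and, Set.mem_iUnion,
      exists_prop]
    constructor
    · intro h; exact ⟨c z, h, le_rfl⟩
    · rintro ⟨a, ha, hz⟩; exact hD hz ha
  rw [this]
  exact finset_biUnion_mem h0 hU _ _ (fun a _ => hc a)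

/-- Composition of a `K`-map with a monotone map. -/
theorem KMap.comp (h0 : ∅ ∈ K) (hU : ∀ A ∈ K, ∀ B ∈ K, A ∪ B ∈ K) {G G' : Type} [Preorder G]
    [Preorder G'] [Finite G] {c : M → G} (hc : KMap K c) {φ : G → G'} (hφ : Monotone φ) :
    KMap K (φ ∘ c) := by
  intro a
  have : {z | (φ ∘ c) z ≤ a} = {z | c z ∈ {x | φ x ≤ a}} := rfl
  rw [this]
  exact hc.lower h0 hU (fun x y hxy hx => (hφ hxy).trans hx)

theorem KMap.prod (hI : ∀ A ∈ K, ∀ B ∈ K, A ∩ B ∈ K) {G G' : Type} [Preorder G]
    [Preorder G'] {c : M → G} (hc : KMap K c) {c' : M → G'} (hc' : KMap K c') :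
    KMap K (fun z => (c z, c' z)) := by
  intro a
  have : {z | (c z, c' z) ≤ a} = {z | c z ≤ a.1} ∩ {z | c' z ≤ a.2} := by
    ext z; simp [Prod.le_def]
  rw [this]
  exact hI _ (hc _) _ (hc' _)

theorem KMap.pi (h1 : Set.univ ∈ K) (hI : ∀ A ∈ K, ∀ B ∈ K, A ∩ B ∈ K) {ι : Type} [Finite ι]
    {G : ι → Type} [∀ i, Preorder (G i)] {c : M → ∀ i, G i} (hc : ∀ i, KMap K (fun z => c z i)) :
    KMap K c := by
  classical
  have := Fintype.ofFinite ι
  intro a
  have : {z | c z ≤ a} = ⋂ i ∈ (Finset.univ : Finset ι), {z | c z i ≤ a i} := by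
    ext z; simp [Pi.le_def]
  rw [this]
  exact finset_biInter_mem h1 hI _ _ (fun i _ => hc i (a i))

/-- The conjecture for all numbers of labels gives the selection principle. -/
theorem sel_of_ec (hI : ∀ A ∈ K, ∀ B ∈ K, A ∩ B ∈ K) (h : ∀ k, EC K k) {G G' : Type}
    [Lattice G] [BoundedOrder G] [Finite G] [Lattice G'] [BoundedOrder G'] [Finite G']
    (A : G → G' → Prop) : Sel K A := by
  classical
  intro hA
  have := Fintype.ofFinite G
  let e : Option G ≃ Fin (Fintype.card (Option G)) := Fintype.equivFin _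
  let f : G → Fin (Fintype.card (Option G)) := fun x => e (some x)
  let f' : G × G' → Fin (Fintype.card (Option G)) :=
    fun p => if A p.1 p.2 then e (some p.1) else e none
  have hsub : Cls K f ⊆ Cls K f' := by
    rw [cls_subset_iff]
    intro c hc
    obtain ⟨c', hc', hz⟩ := hA c hc
    refine ⟨fun z => (c z, c' z), hc.prod hI hc', fun z => ?_⟩
    simp only [f', f]
    rw [if_pos (hz z)]
  obtain ⟨φ, hφ, hφ2⟩ := h _ G (G × G') f f' hsub
  have key : ∀ x, (φ x).1 = x ∧ A (φ x).1 (φ x).2 := by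
    intro x
    have := hφ2 x
    simp only [f', f] at this
    split_ifs at this with h1
    · exact ⟨Option.some.inj (e.injective this), h1⟩
    · exact absurd (e.injective this) (by simp)
  refine ⟨fun x => (φ x).2, fun x y hxy => (hφ hxy).2, fun x => ?_⟩
  obtain ⟨h1, h2⟩ := key x
  rwa [h1] at h2

/-- The Boolean selection principle: relations between `{1,2}^ι` and `{1,2}^κ`. -/
theorem ec_of_sel (h0 : ∅ ∈ K) (hU : ∀ A ∈ K, ∀ B ∈ K, A ∪ B ∈ K)
    (h : ∀ (m n : ℕ) (A : (Fin m → Fin 2) → (Fin n → Fin 2) → Prop), Sel K A) (k : ℕ) :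
    EC K k := by
  classical
  intro G G' _ _ _ _ _ _ f f' hsub
  have := Fintype.ofFinite G
  have := Fintype.ofFinite G'
  rw [cls_subset_iff] at hsub
  let e := Fintype.equivFin G
  let e' := Fintype.equivFin G'
  -- the retraction of the Boolean lattice onto `G`
  let μ : (Fin (Fintype.card G) → Fin 2) → G :=
    fun x => (Finset.univ.filter (fun a => x (e a) = 0)).inf id
  let μ' : (Fin (Fintype.card G') → Fin 2) → G' :=
    fun x => (Finset.univ.filter (fun a => x (e' a) = 0)).inf id
  have hμ : Monotone μ := by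
    intro x y hxy
    apply Finset.inf_mono
    intro a ha
    simp only [Finset.mem_filter, Finset.mem_univ, true_and] at ha ⊢
    have := hxy (e a)
    rw [ha] at this
    exact le_antisymm this (Fin.zero_le _)
  have hμ' : Monotone μ' := by
    intro x y hxy
    apply Finset.inf_mono
    intro a ha
    simp only [Finset.mem_filter, Finset.mem_univ, true_and] at ha ⊢
    have := hxy (e' a)
    rw [ha] at this
    exact le_antisymm this (Fin.zero_le _)
  let ν : G → (Fin (Fintype.card G) → Fin 2) := fun a i => if a ≤ e.symm i then 0 else 1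
  let ν' : G' → (Fin (Fintype.card G') → Fin 2) := fun a i => if a ≤ e'.symm i then 0 else 1
  have hμν : ∀ a, μ (ν a) = a := by
    intro a
    apply le_antisymm
    · apply Finset.inf_le (f := id)
      simp [ν]
    · apply Finset.le_inf
      intro b hb
      simpa [ν] using hb
  have hμν' : ∀ a, μ' (ν' a) = a := by
    intro a
    apply le_antisymm
    · apply Finset.inf_le (f := id)
      simp [ν']
    · apply Finset.le_inf
      intro b hb
      simpa [ν'] using hb
  have hν : Monotone ν := by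
    intro a b hab i
    simp only [ν]
    by_cases h2 : b ≤ e.symm i
    · rw [if_pos h2, if_pos (hab.trans h2)]
    · rw [if_neg h2]
      exact Fin.le_last _
  obtain ⟨g, hg, hg2⟩ := h _ _ (fun x y => f' (μ' y) = f (μ x)) (by
    intro c hc
    obtain ⟨c', hc', hz⟩ := hsub (μ ∘ c) (hc.comp h0 hU hμ)
    refine ⟨ν' ∘ c', ?_, fun z => ?_⟩
    · apply KMap.comp h0 hU hc'
      intro a b hab i
      simp only [ν']
      by_cases h2 : b ≤ e'.symm i
      · rw [if_pos h2, if_pos (hab.trans h2)]
      · rw [if_neg h2]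
        exact Fin.le_last _
    · simp only [Function.comp_apply, hμν']
      exact hz z)
  refine ⟨μ' ∘ g ∘ ν, hμ'.comp (hg.comp hν), fun x => ?_⟩
  have := hg2 (ν x)
  simp only [hμν] at this
  exact this

end

/-- A monotone sequence in a finite order is constant on some block. -/
theorem stable {Q : Type} [PartialOrder Q] [Finite Q] (w : ℕ → Q) (hw : Monotone w) (L : ℕ) :
    ∃ t < Nat.card Q, w (L * t) = w (L * (t + 1)) := by
  classical
  have := Fintype.ofFinite Q
  by_contra hcon
  push Not at hcon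
  have hstrict : ∀ t, t ≤ Nat.card Q → ∀ s, s < t → w (L * s) < w (L * t) := by
    intro t
    induction t with
    | zero => intro _ s hs; omega
    | succ t ih =>
      intro ht s hs
      have h1 : w (L * t) < w (L * (t + 1)) :=
        lt_of_le_of_ne (hw (Nat.mul_le_mul_left _ (Nat.le_succ _))) (hcon t (by omega))
      rcases Nat.lt_succ_iff_lt_or_eq.1 hs with h2 | h2
      · exact (ih (by omega) s h2).trans h1
      · rw [h2]; exact h1
  have hinj : Function.Injective (fun t : Fin (Nat.card Q + 1) => w (L * t.val)) := by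
    intro s t hst
    rcases lt_trichotomy s t with h2 | h2 | h2
    · exact absurd hst (hstrict t.val (by omega) s.val h2).ne
    · exact h2
    · exact absurd hst.symm (hstrict s.val (by omega) t.val h2).ne
  have := Fintype.card_le_of_injective _ hinj
  rw [Fintype.card_fin, Nat.card_eq_fintype_card] at this
  omega

theorem stable' {Q : Type} [PartialOrder Q] [Finite Q] (w : ℕ → Q) (hw : Monotone w) (L : ℕ) :
    ∃ t < Nat.card Q, ∀ i, i ≤ L → w (L * t + i) = w (L * t) := by
  obtain ⟨t, ht, h⟩ := stable w hw L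
  refine ⟨t, ht, fun i hi => le_antisymm ?_ (hw (Nat.le_add_right _ _))⟩
  rw [h]
  apply hw
  rw [Nat.mul_succ]
  omega

end Pool.Agent.Lib.EC4075
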