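import Mathlib

/-! # Boolean hierarchies of k-partitions: definitions

`K` is a class of subsets of a set `M` (for the open problem: `M` is the set of all words and `K`
is NP). All definitions follow the problem file word by word. -/

namespace Pool.Agent.Lib.EC4075

/-- `S` is a `K`-homomorphism on the finite lattice `G`: `S a ∈ K`, `S ⊤ = M` and
`S (a ⊓ b) = S a ∩ S b`. -/
def IsHom {M G : Type} [Lattice G] [BoundedOrder G] (K : Set (Set M)) (S : G → Set M) : Prop :=
  (∀ a, S a ∈ K) ∧ S ⊤ = Set.univ ∧ ∀ a b, S (a ⊓ b) = S a ∩ S b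

/-- `T_S(a)`: the set `S a` without all `S b`, `b < a`. -/
def T {M G : Type} [Lattice G] (S : G → Set M) (a : G) : Set M :=
  S a \ ⋃ b ∈ {b : G | b < a}, S b

/-- The k-partition given by `(G, f)` and `S`: its class with number `i` is the union of the
`T_S(a)` with `f a = i`. -/
def part {M G : Type} [Lattice G] {k : ℕ} (f : G → Fin k) (S : G → Set M) : Fin k → Set M :=
  fun i => ⋃ a ∈ {a : G | f a = i}, T S a

/-- `K(G, f)`: the set of all k-partitions given by `(G, f)` and a `K`-homomorphism on `G`. -/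
def Cls {M G : Type} [Lattice G] [BoundedOrder G] {k : ℕ} (K : Set (Set M)) (f : G → Fin k) :
    Set (Fin k → Set M) :=
  {A | ∃ S : G → Set M, IsHom K S ∧ part f S = A}

/-- `(G, f) ≤ (G', f')`: there is a monotone map `φ : G → G'` with `f' (φ x) = f x`. -/
def Emb {G G' : Type} [Lattice G] [Lattice G'] {k : ℕ} (f : G → Fin k) (f' : G' → Fin k) : Prop :=
  ∃ φ : G → G', Monotone φ ∧ ∀ x, f' (φ x) = f x

/-- The implication of the Embedding Conjecture for the class `K` and a fixed number `k` of
labels: for all k-lattices `(G, f)`, `(G', f')`, the inclusion `K(G, f) ⊆ K(G', f')` implies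
`(G, f) ≤ (G', f')`. -/
def EC {M : Type} (K : Set (Set M)) (k : ℕ) : Prop :=
  ∀ (G G' : Type) [Lattice G] [BoundedOrder G] [Finite G]
    [Lattice G'] [BoundedOrder G'] [Finite G'] (f : G → Fin k) (f' : G' → Fin k),
    Cls K f ⊆ Cls K f' → Emb f f'

end Pool.Agent.Lib.EC4075
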