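import Pool.Agent.Lib.MP_4075bc_lc.Stoch

/-! # The exact stochastically monotone selection -/

namespace Pool.Agent.Lib.EC4075

open Finset Filter Topology

/-- A finite lattice is a monotone retract of a Boolean lattice. -/
theorem exists_bool_retract (G : Type) [Lattice G] [BoundedOrder G] [Finite G] :
    ∃ (m : ℕ) (μ : (Fin m → Fin 2) → G) (ν : G → (Fin m → Fin 2)),
      Monotone μ ∧ Monotone ν ∧ ∀ a, μ (ν a) = a := by
  classical
  have := Fintype.ofFinite G
  let e := Fintype.equivFin G
  refine ⟨Fintype.card G, fun x => (Finset.univ.filter (fun a => x (e a) = 0)).inf id,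
    fun a i => if a ≤ e.symm i then 0 else 1, ?_, ?_, ?_⟩
  · intro x y hxy
    apply Finset.inf_mono
    intro a ha
    simp only [Finset.mem_filter, Finset.mem_univ, true_and] at ha ⊢
    have := hxy (e a)
    rw [ha] at this
    exact le_antisymm this (Fin.zero_le _)
  · intro a b hab i
    dsimp only
    by_cases h2 : b ≤ e.symm i
    · rw [if_pos h2, if_pos (hab.trans h2)]
    · rw [if_neg h2]
      exact Fin.le_last _
  · intro a
    apply le_antisymm
    · apply Finset.inf_le (f := id)
      simp
    · apply Finset.le_inf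
      intro b hb
      simpa using hb

theorem mono_of_flip {m : ℕ} (F : (Fin m → Fin 2) → ℝ)
    (h : ∀ x i, x i = 0 → F (Function.update x i 1) ≤ F x) :
    ∀ x x', x ≤ x' → F x' ≤ F x := by
  classical
  have key : ∀ (k : ℕ) (x x' : Fin m → Fin 2), x ≤ x' →
      (Finset.univ.filter (fun i => x i ≠ x' i)).card = k → F x' ≤ F x := by
    intro k
    induction k with
    | zero =>
      intro x x' _ hk
      have : x = x' := by
        funext i
        by_contra hne
        have : i ∈ Finset.univ.filter (fun i => x i ≠ x' i) := by simp [hne]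
        rw [Finset.card_eq_zero.1 hk] at this
        exact absurd this (Finset.notMem_empty _)
      rw [this]
    | succ k ih =>
      intro x x' hxx hk
      have hpos : 0 < (Finset.univ.filter (fun i => x i ≠ x' i)).card := by
        rw [hk]; exact Nat.succ_pos k
      obtain ⟨i, hi⟩ := Finset.card_pos.1 hpos
      have hne : x i ≠ x' i := (Finset.mem_filter.1 hi).2
      have hle : x i ≤ x' i := hxx i
      have h0 : x i = 0 := by omega
      have h1 : x' i = 1 := by omega
      have h2 := ih (Function.update x i 1) x' (by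
        intro j
        by_cases hj : j = i
        · subst hj; rw [Function.update_self, h1]
        · rw [Function.update_of_ne hj]; exact hxx j) (by
        have : Finset.univ.filter (fun j => Function.update x i 1 j ≠ x' j) =
            (Finset.univ.filter (fun j => x j ≠ x' j)).erase i := by
          ext j
          simp only [Finset.mem_filter, Finset.mem_univ, true_and, Finset.mem_erase]
          by_cases hj : j = i
          · subst hj; simp [h1]
          · rw [Function.update_of_ne hj]; simp [hj]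
        rw [this, Finset.card_erase_of_mem hi, hk]
        rfl)
      exact h2.trans (h x i h0)
  intro x x' hxx
  exact key _ x x' hxx rfl

theorem exact_sel {K : Set (Set (List Word))} (hK : NPLike K) {L : Set Word}
    (hLc : ¬ InPoly K Lᶜ) {G' : Type} [Preorder G'] [Fintype G'] {m : ℕ}
    {c' : List Word → G'} (hc' : KMap K c') (A : (Fin m → Fin 2) → G' → Prop)
    (hA : ∀ u, A (typ L m u) (c' u)) :
    ∃ π : (Fin m → Fin 2) → G' → ℝ, StochSel A π ∧
      ∀ x x', x ≤ x' → ∀ D : Set G', IsLowerSet D → mass (π x') D ≤ mass (π x) D := by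
  classical
  have hex : ∀ k : ℕ, ∃ π : (Fin m → Fin 2) → G' → ℝ, StochSel A π ∧
      ∀ x i, x i = 0 → ∀ D : Set G', IsLowerSet D →
        mass (π (Function.update x i 1)) D ≤ mass (π x) D + 1 / ((k : ℝ) + 1) := by
    intro k
    refine approx hK hLc hc' A hA (1 / ((k : ℝ) + 1)) (by positivity) ?_
    rw [div_le_one (by positivity)]
    have : (0 : ℝ) ≤ k := Nat.cast_nonneg k
    linarith
  choose π hπ1 hπ2 using hex
  have hmem : ∀ k, π k ∈ Set.Icc (0 : (Fin m → Fin 2) → G' → ℝ) 1 := by
    intro k
    constructor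
    · intro x g; exact (hπ1 k).1 x g
    · intro x g
      have h1 := (hπ1 k).2.1 x
      have h2 : π k x g ≤ ∑ g, π k x g :=
        Finset.single_le_sum (f := fun g => π k x g) (fun g _ => (hπ1 k).1 x g)
          (Finset.mem_univ g)
      rw [h1] at h2
      exact h2
  obtain ⟨ρ, _, φ, hφ, hlim⟩ := (isCompact_Icc).tendsto_subseq hmem
  have hpt : ∀ x g, Tendsto (fun k => π (φ k) x g) atTop (𝓝 (ρ x g)) := by
    intro x g
    have h1 := tendsto_pi_nhds.1 hlim x
    exact tendsto_pi_nhds.1 h1 g
  have hmasslim : ∀ x (D : Set G'), Tendsto (fun k => mass (π (φ k) x) D) atTop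
      (𝓝 (mass (ρ x) D)) := by
    intro x D
    unfold mass
    exact tendsto_finsetSum _ (fun g _ => hpt x g)
  refine ⟨ρ, ⟨fun x g => ge_of_tendsto' (hpt x g) (fun k => (hπ1 _).1 x g), fun x => ?_,
    fun x g hg => ?_⟩, ?_⟩
  · have h1 : Tendsto (fun k => ∑ g, π (φ k) x g) atTop (𝓝 (∑ g, ρ x g)) :=
      tendsto_finsetSum _ (fun g _ => hpt x g)
    have h2 : Tendsto (fun k => ∑ g, π (φ k) x g) atTop (𝓝 1) := by
      simp only [(hπ1 _).2.1 x]
      exact tendsto_const_nhds
    exact tendsto_nhds_unique h1 h2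
  · by_contra hcon
    apply hg
    have h1 : ∀ k, π (φ k) x g = 0 := by
      intro k
      by_contra hne
      exact hcon ((hπ1 _).2.2 x g hne)
    have h2 := hpt x g
    simp only [h1] at h2
    exact tendsto_nhds_unique h2 tendsto_const_nhds
  · intro x x' hxx D hD
    refine mono_of_flip (fun x => mass (ρ x) D) (fun x i hi => ?_) x x' hxx
    have h1 : Tendsto (fun k => mass (π (φ k) x) D + 1 / (((φ k : ℕ) : ℝ) + 1)) atTop
        (𝓝 (mass (ρ x) D + 0)) := by
      apply (hmasslim x D).add
      exact (tendsto_one_div_add_atTop_nhds_zero_nat (𝕜 := ℝ)).comp hφ.tendsto_atTop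
    rw [add_zero] at h1
    exact le_of_tendsto_of_tendsto' (hmasslim _ D) h1 (fun k => hπ2 (φ k) x i hi D hD)

/-- The stochastic embedding theorem. -/
theorem stochastic {K : Set (Set (List Word))} (hK : NPLike K) (hard : CoHard K)
    {G G' : Type} [Lattice G] [BoundedOrder G] [Finite G] [Lattice G'] [BoundedOrder G']
    [Fintype G'] {k : ℕ} (f : G → Fin k) (f' : G' → Fin k) (hsub : Cls K f ⊆ Cls K f') :
    ∃ π : G → G' → ℝ, StochSel (fun x y => f' y = f x) π ∧
      ∀ x x', x ≤ x' → ∀ D : Set G', IsLowerSet D → mass (π x') D ≤ mass (π x) D := by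
  obtain ⟨L, hL, hLc⟩ := hard
  obtain ⟨m, μ, ν, hμ, hν, hμν⟩ := exists_bool_retract G
  rw [cls_subset_iff] at hsub
  obtain ⟨c', hc', hz⟩ := hsub (μ ∘ typ L m)
    ((typ_kmap hK hL m).comp hK.empty_mem hK.union hμ)
  obtain ⟨π, ⟨h1, h2, h3⟩, h4⟩ := exact_sel hK hLc hc' (fun x g => f' g = f (μ x)) hz
  refine ⟨fun x => π (ν x), ⟨fun x g => h1 _ g, fun x => h2 _, fun x g hg => ?_⟩,
    fun x x' hxx D hD => h4 _ _ (hν hxx) D hD⟩
  have h5 : f' g = f (μ (ν x)) := h3 (ν x) g hg
  rwa [hμν] at h5

end Pool.Agent.Lib.EC4075
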