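import Pool.Agent.Lib.MP_4075bc_lc.Defs

/-! # Classes with the closure properties of NP, and advice

The underlying set `M` consists of the finite sequences of binary words (that is, of the words
over a three letter alphabet: two bits and a separator). -/

namespace Pool.Agent.Lib.EC4075

/-- Binary words. -/
abbrev Word : Type := List Bool

/-- The word number `j` of a finite sequence of words (the empty word if there is none). -/
def wd (u : List Word) (j : ℕ) : Word := u.getD j []

/-- The size of a finite sequence of words. -/
def size (u : List Word) : ℕ := (u.map (fun w => w.length + 1)).sum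

/-- `K` has these closure properties, all shared by NP (and by NP relative to any oracle):
it contains `∅` and `M` and is closed under unions and intersections; it contains the
(polynomial time decidable) sets `the word number j has length l`; it is closed under inverse
images for the polynomial time maps which select, repeat or rearrange words of a sequence; and it
is closed under polynomial size thresholds: the class contains the set of all sequences `u`, with
first word `y`, second word `t` and the remaining words divided into consecutive blocks of `p`
words, for which at least `|t|` of the blocks `b` have the property that `y, b` lies in `A`. -/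
structure NPLike (K : Set (Set (List Word))) : Prop where
  empty_mem : ∅ ∈ K
  univ_mem : Set.univ ∈ K
  union : ∀ A ∈ K, ∀ B ∈ K, A ∪ B ∈ K
  inter : ∀ A ∈ K, ∀ B ∈ K, A ∩ B ∈ K
  length : ∀ j l : ℕ, {u | (wd u j).length = l} ∈ K
  select : ∀ A ∈ K, ∀ J : List ℕ, {u | J.map (wd u) ∈ A} ∈ K
  threshold : ∀ A ∈ K, ∀ p : ℕ, 0 < p →
    {u | ∃ S : Finset ℕ, S.card = (wd u 1).length ∧ ∀ s ∈ S, 2 + p * (s + 1) ≤ u.length ∧
      (wd u 0 :: (List.range p).map (fun j => wd u (2 + p * s + j))) ∈ A} ∈ K

/-- The set `L` of words belongs to `K/poly`: there are `A ∈ K` and, for each length `n`, an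
advice `a n` (a finite sequence of words) of size polynomial in `n` such that `y ∈ L` iff the
sequence `y, a |y|` lies in `A`. -/
def InPoly (K : Set (Set (List Word))) (L : Set Word) : Prop :=
  ∃ A ∈ K, ∃ (a : ℕ → List Word) (c : ℕ), (∀ n, size (a n) ≤ c * (n + 1) ^ c) ∧
    ∀ y : Word, y ∈ L ↔ (y :: a y.length) ∈ A

/-- `co-K` is not contained in `K/poly` (for NP: `coNP ⊄ NP/poly`, which holds if the polynomial
hierarchy does not collapse, by a theorem of Yap): some `L ∈ K` has its complement outside
`K/poly`. -/
def CoHard (K : Set (Set (List Word))) : Prop :=
  ∃ L : Set Word, {u | wd u 0 ∈ L} ∈ K ∧ ¬ InPoly K Lᶜ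

end Pool.Agent.Lib.EC4075
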