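import Mathlib

/-! # Sparse separation by multiplicative weights -/

namespace Pool.Agent.Lib.EC4075

open Finset

open Classical in
/-- number of tests of the list that accept `y` -/
noncomputable def cnt {Θ W : Type} (hit : Θ → W → Prop) (l : List Θ) (y : W) : ℕ :=
  l.countP (fun θ => decide (hit θ y))

open Classical in
theorem cnt_cons {Θ W : Type} (hit : Θ → W → Prop) (θ : Θ) (l : List Θ) (y : W) :
    cnt hit (θ :: l) y = cnt hit l y + if hit θ y then 1 else 0 := by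
  unfold cnt
  rw [List.countP_cons]
  simp

/-- `p` is a probability distribution on the finite set `N`. -/
def IsProb {W : Type} (N : Finset W) (p : W → ℝ) : Prop :=
  (∀ y, 0 ≤ p y) ∧ ∑ y ∈ N, p y = 1

open Classical in
theorem step {Θ W : Type} (hit : Θ → W → Prop) (N Y : Finset W) (hN : N.Nonempty)
    (hY : Y.Nonempty) (ε : ℝ) (hε : 0 < ε) (hε1 : ε ≤ 1)
    (H : ∀ p q : W → ℝ, IsProb N p → IsProb Y q →
      ∃ θ, ∑ y ∈ Y with hit θ y, q y + ε ≤ ∑ y ∈ N with hit θ y, p y)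
    (l : List Θ) :
    ∃ θ, (∑ y ∈ N, (1 - ε / 2) ^ cnt hit (θ :: l) y) *
        (∑ y ∈ Y, ((1 - ε / 2)⁻¹) ^ cnt hit (θ :: l) y) ≤
      (∑ y ∈ N, (1 - ε / 2) ^ cnt hit l y) * (∑ y ∈ Y, ((1 - ε / 2)⁻¹) ^ cnt hit l y) *
        (1 - ε ^ 2 / 4) := by
  set ρ : ℝ := 1 - ε / 2 with hρ
  have hρ0 : 0 < ρ := by rw [hρ]; linarith
  have hρ1 : ρ < 1 := by rw [hρ]; linarith
  set P := ∑ y ∈ N, ρ ^ cnt hit l y with hP
  set Q := ∑ y ∈ Y, (ρ⁻¹) ^ cnt hit l y with hQ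
  have hP0 : 0 < P := Finset.sum_pos (fun y _ => by positivity) hN
  have hQ0 : 0 < Q := Finset.sum_pos (fun y _ => by positivity) hY
  obtain ⟨θ, hθ⟩ := H (fun y => ρ ^ cnt hit l y / P) (fun y => (ρ⁻¹) ^ cnt hit l y / Q)
    ⟨fun y => by positivity, by rw [← Finset.sum_div]; exact div_self hP0.ne'⟩
    ⟨fun y => by positivity, by rw [← Finset.sum_div]; exact div_self hQ0.ne'⟩
  rw [← Finset.sum_div, ← Finset.sum_div] at hθ
  refine ⟨θ, ?_⟩
  set α := (∑ y ∈ N with hit θ y, ρ ^ cnt hit l y) / P with hα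
  set β := (∑ y ∈ Y with hit θ y, (ρ⁻¹) ^ cnt hit l y) / Q with hβ
  have hα1 : α ≤ 1 := by
    rw [hα, div_le_one hP0]
    exact Finset.sum_le_sum_of_subset_of_nonneg (Finset.filter_subset _ _)
      (fun y _ _ => by positivity)
  have hβ0 : 0 ≤ β := by
    rw [hβ]
    apply div_nonneg _ hQ0.le
    exact Finset.sum_nonneg (fun y _ => by positivity)
  have e1 : ∑ y ∈ N, ρ ^ cnt hit (θ :: l) y = P * (1 - (1 - ρ) * α) := by
    have h1 : ∑ y ∈ N, ρ ^ cnt hit (θ :: l) y =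
        ∑ y ∈ N, (ρ ^ cnt hit l y - (1 - ρ) * if hit θ y then ρ ^ cnt hit l y else 0) := by
      apply Finset.sum_congr rfl
      intro y _
      rw [cnt_cons]
      split_ifs
      · rw [pow_succ]; ring
      · simp
    have hαP : ∑ y ∈ N with hit θ y, ρ ^ cnt hit l y = α * P := by
      rw [hα, div_mul_cancel₀ _ hP0.ne']
    rw [h1, Finset.sum_sub_distrib, ← Finset.mul_sum, ← Finset.sum_filter, ← hP, hαP]
    ring
  have e2 : ∑ y ∈ Y, (ρ⁻¹) ^ cnt hit (θ :: l) y = Q * (1 + (ρ⁻¹ - 1) * β) := by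
    have h1 : ∑ y ∈ Y, (ρ⁻¹) ^ cnt hit (θ :: l) y =
        ∑ y ∈ Y, ((ρ⁻¹) ^ cnt hit l y + (ρ⁻¹ - 1) *
          if hit θ y then (ρ⁻¹) ^ cnt hit l y else 0) := by
      apply Finset.sum_congr rfl
      intro y _
      rw [cnt_cons]
      split_ifs
      · rw [pow_succ]; ring
      · simp
    have hβQ : ∑ y ∈ Y with hit θ y, (ρ⁻¹) ^ cnt hit l y = β * Q := by
      rw [hβ, div_mul_cancel₀ _ hQ0.ne']
    rw [h1, Finset.sum_add_distrib, ← Finset.mul_sum, ← Finset.sum_filter, ← hQ, hβQ]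
    ring
  rw [e1, e2]
  have hPQ : 0 < P * Q := mul_pos hP0 hQ0
  have key : (1 - (1 - ρ) * α) * (1 + (ρ⁻¹ - 1) * β) ≤ 1 - ε ^ 2 / 4 := by
    have hu : 1 - ρ = ε / 2 := by rw [hρ]; ring
    set v := ρ⁻¹ - 1 with hv
    have hvρ : v * ρ = 1 - ρ := by rw [hv, sub_mul, inv_mul_cancel₀ hρ0.ne']; ring
    have hv0 : 0 < v := by
      have : 0 < v * ρ := by rw [hvρ, hu]; linarith
      exact pos_of_mul_pos_left this hρ0.le
    have hvu : ε / 2 ≤ v := by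
      have : v * ρ ≤ v * 1 := mul_le_mul_of_nonneg_left hρ1.le hv0.le
      rw [hvρ, hu] at this
      linarith
    have hβα : β ≤ α - ε := by linarith
    have h2 : 0 ≤ 1 - (1 - ρ) * α := by rw [hu]; nlinarith
    have h3 : (1 - (1 - ρ) * α) * (1 + v * β) ≤ (1 - (1 - ρ) * α) * (1 + v * (α - ε)) := by
      apply mul_le_mul_of_nonneg_left _ h2
      have := mul_le_mul_of_nonneg_left hβα hv0.le
      linarith
    refine h3.trans ?_
    rw [hu]
    -- v * (1 - ε/2) = ε/2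
    have h4 : v * (1 - ε / 2) = ε / 2 := by rw [← hρ, hvρ, hu]
    have h5 : (1 - ε / 2 * α) * (1 + v * (α - ε)) =
        1 - v * ε + (ε / 2) * v * (α * (1 + ε - α)) := by
      have : v = ε / 2 + v * (ε / 2) := by linarith
      have h6 : (1 - ε / 2 * α) * (1 + v * (α - ε)) -
        (1 - v * ε + (ε / 2) * v * (α * (1 + ε - α))) = α * (v - ε / 2 - v * (ε / 2)) := by ring
      have h7 : v - ε / 2 - v * (ε / 2) = 0 := by linarith
      rw [h7, mul_zero] at h6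
      linarith
    rw [h5]
    have h8 : α * (1 + ε - α) ≤ 1 := by nlinarith [sq_nonneg (α - 1), sq_nonneg α, hε, hε1, hα1]
    have h9 : (ε / 2) * v * (α * (1 + ε - α)) ≤ (ε / 2) * v * 1 :=
      mul_le_mul_of_nonneg_left h8 (by positivity)
    nlinarith
  calc P * (1 - (1 - ρ) * α) * (Q * (1 + (ρ⁻¹ - 1) * β))
      = P * Q * ((1 - (1 - ρ) * α) * (1 + (ρ⁻¹ - 1) * β)) := by ring
    _ ≤ P * Q * (1 - ε ^ 2 / 4) := mul_le_mul_of_nonneg_left key hPQ.le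

open Classical in
/-- Multiplicative weights: if no pair of distributions fools all tests, then a short list of
tests separates `N` from `Y` by counting. -/
theorem sparse {Θ W : Type} (hit : Θ → W → Prop) (N Y : Finset W) (hN : N.Nonempty)
    (hY : Y.Nonempty) (ε : ℝ) (hε : 0 < ε) (hε1 : ε ≤ 1)
    (H : ∀ p q : W → ℝ, IsProb N p → IsProb Y q →
      ∃ θ, ∑ y ∈ Y with hit θ y, q y + ε ≤ ∑ y ∈ N with hit θ y, p y)
    (R : ℕ) (hR : (N.card : ℝ) * Y.card * (1 - ε ^ 2 / 4) ^ R < 1) :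
    ∃ l : List Θ, l.length = R ∧ ∀ y₀ ∈ N, ∀ y₁ ∈ Y, cnt hit l y₁ < cnt hit l y₀ := by
  have hq : 0 ≤ 1 - ε ^ 2 / 4 := by nlinarith
  have hlist : ∀ R : ℕ, ∃ l : List Θ, l.length = R ∧
      (∑ y ∈ N, (1 - ε / 2) ^ cnt hit l y) * (∑ y ∈ Y, ((1 - ε / 2)⁻¹) ^ cnt hit l y) ≤
        (N.card : ℝ) * Y.card * (1 - ε ^ 2 / 4) ^ R := by
    intro R
    induction R with
    | zero => exact ⟨[], rfl, by simp [cnt]⟩
    | succ R ih =>
      obtain ⟨l, hl, h1⟩ := ih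
      obtain ⟨θ, hθ⟩ := step hit N Y hN hY ε hε hε1 H l
      refine ⟨θ :: l, by simp [hl], hθ.trans ?_⟩
      rw [pow_succ (1 - ε ^ 2 / 4) R, ← mul_assoc]
      exact mul_le_mul_of_nonneg_right h1 hq
  obtain ⟨l, hl, h1⟩ := hlist R
  refine ⟨l, hl, fun y₀ h₀ y₁ h₁ => ?_⟩
  by_contra hcon
  push Not at hcon
  set ρ : ℝ := 1 - ε / 2 with hρ
  have hρ0 : 0 < ρ := by rw [hρ]; linarith
  have hρ1 : ρ < 1 := by rw [hρ]; linarith
  have a1 : ρ ^ cnt hit l y₀ ≤ ∑ y ∈ N, ρ ^ cnt hit l y :=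
    Finset.single_le_sum (f := fun y => ρ ^ cnt hit l y) (fun y _ => by positivity) h₀
  have a2 : (ρ⁻¹) ^ cnt hit l y₁ ≤ ∑ y ∈ Y, (ρ⁻¹) ^ cnt hit l y :=
    Finset.single_le_sum (f := fun y => (ρ⁻¹) ^ cnt hit l y) (fun y _ => by positivity) h₁
  have a3 : (1 : ℝ) ≤ ρ ^ cnt hit l y₀ * (ρ⁻¹) ^ cnt hit l y₁ := by
    obtain ⟨d, hd⟩ := Nat.exists_eq_add_of_le hcon
    rw [hd, pow_add, ← mul_assoc, ← mul_pow, mul_inv_cancel₀ hρ0.ne', one_pow, one_mul]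
    exact one_le_pow₀ ((one_le_inv₀ hρ0).2 hρ1.le)
  have a4 : ρ ^ cnt hit l y₀ * (ρ⁻¹) ^ cnt hit l y₁ ≤
      (∑ y ∈ N, ρ ^ cnt hit l y) * (∑ y ∈ Y, (ρ⁻¹) ^ cnt hit l y) :=
    mul_le_mul a1 a2 (by positivity) (Finset.sum_nonneg (fun y _ => by positivity))
  linarith

end Pool.Agent.Lib.EC4075
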