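import Pool.Agent.Lib.MP_4075bc_lc.Core
import Pool.Agent.Lib.MP_4075bc_lc.NPDefs
import Pool.Agent.Lib.MP_4075bc_lc.Sparse

/-! # Fooling distributions -/

namespace Pool.Agent.Lib.EC4075

open Finset

theorem cnt_append {Θ W : Type} (hit : Θ → W → Prop) (l : List Θ) (θ : Θ) (y : W) [Decidable (hit θ y)] :
    cnt hit (l ++ [θ]) y = cnt hit l y + if hit θ y then 1 else 0 := by
  classical
  unfold cnt
  rw [List.countP_append, List.countP_singleton]
  simp

theorem cnt_le {Θ W : Type} (hit : Θ → W → Prop) (l : List Θ) (y : W) :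
    cnt hit l y ≤ l.length := List.countP_le_length

/-- `cnt` as the number of indices. -/
theorem cnt_eq_card {Θ W : Type} (hit : Θ → W → Prop) (l : List Θ) (y : W) :
    ∃ F : Finset ℕ, (∀ s, s ∈ F ↔ s < l.length ∧ ∃ θ, l[s]? = some θ ∧ hit θ y) ∧
      cnt hit l y = F.card := by
  classical
  induction l using List.reverseRecOn with
  | nil => exact ⟨∅, by simp, by simp [cnt]⟩
  | append_singleton l θ ih =>
    obtain ⟨F, hF, hc⟩ := ih
    have h2 : (l ++ [θ])[l.length]? = some θ := by simp
    have h0 : l.length ∉ F := fun h => absurd ((hF _).1 h).1 (lt_irrefl _)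
    refine ⟨if hit θ y then insert l.length F else F, fun s => ?_, ?_⟩
    · rw [List.length_append, List.length_singleton]
      rcases lt_trichotomy s l.length with h | h | h
      · rw [List.getElem?_append_left h]
        have h5 : s ≠ l.length := h.ne
        have h6 : s < l.length + 1 := by omega
        split_ifs
        · rw [Finset.mem_insert, hF]; simp [h, h5, h6]
        · rw [hF]; simp [h, h6]
      · subst h
        rw [h2]
        split_ifs with h3
        · simp [h3]
        · simp [h0, h3]
      · have h4 : ¬ s < l.length + 1 := by omega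
        have h5 : ¬ s < l.length := by omega
        have h6 : s ≠ l.length := by omega
        split_ifs
        · rw [Finset.mem_insert, hF]; simp [h4, h5, h6]
        · rw [hF]; simp [h4, h5]
    · rw [cnt_append, hc]
      split_ifs
      · rw [Finset.card_insert_of_notMem h0]
      · rfl

/-- Reading a block of a concatenation of blocks of the same length. -/
theorem flatten_getD {α : Type} (d : α) (p : ℕ) :
    ∀ (bs : List (List α)) (_ : ∀ b ∈ bs, b.length = p) (s j : ℕ) (_ : j < p) (b : List α)
      (_ : bs[s]? = some b), bs.flatten.getD (p * s + j) d = b.getD j d := by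
  intro bs
  induction bs with
  | nil => intro _ s j _ b hb; simp at hb
  | cons b' bs ih =>
    intro hbs s j hj b hb
    have hlen : b'.length = p := hbs b' (by simp)
    cases s with
    | zero =>
      simp only [List.getElem?_cons_zero, Option.some.injEq] at hb
      subst hb
      rw [List.flatten_cons, Nat.mul_zero, Nat.zero_add, List.getD_append _ _ _ _ (by omega)]
    | succ s =>
      simp only [List.getElem?_cons_succ] at hb
      rw [List.flatten_cons, List.getD_append_right _ _ _ _ (by rw [hlen, Nat.mul_succ]; omega), hlen]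
      have : p * (s + 1) + j - p = p * s + j := by rw [Nat.mul_succ]; omega
      rw [this]
      exact ih (fun b hb => hbs b (by simp [hb])) s j hj b hb

theorem length_flatten_const {α : Type} (p : ℕ) (bs : List (List α)) (h : ∀ b ∈ bs, b.length = p) :
    bs.flatten.length = p * bs.length := by
  induction bs with
  | nil => simp
  | cons b bs ih =>
    rw [List.flatten_cons, List.length_append, ih (fun b hb => h b (by simp [hb])), h b (by simp),
      List.length_cons, Nat.mul_succ, Nat.add_comm]

/-- A tuple of words of length `n` as a sequence of words. -/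
def seq {m n : ℕ} (z : Fin m → (Fin n → Bool)) : List Word := List.ofFn (fun j => List.ofFn (z j))

/-- Tests on words of length `n`: a position, a tuple and a down-set. -/
abbrev Test (G' : Type) [Preorder G'] (m n : ℕ) : Type :=
  Fin m × (Fin m → (Fin n → Bool)) × {D : Set G' // IsLowerSet D}

/-- Acceptance. -/
def hitT {G' : Type} [Preorder G'] {m n : ℕ} (c' : List Word → G') (θ : Test G' m n)
    (y : Fin n → Bool) : Prop :=
  c' (seq (Function.update θ.2.1 θ.1 y)) ∈ θ.2.2.1

open Classical in
/-- the words of length `n` in the set `L` -/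
noncomputable def slice (L : Set Word) (n : ℕ) : Finset (Fin n → Bool) :=
  Finset.univ.filter (fun y => List.ofFn y ∈ L)

theorem mem_slice {L : Set Word} {n : ℕ} {y : Fin n → Bool} : y ∈ slice L n ↔ List.ofFn y ∈ L := by
  simp [slice]

section
variable {K : Set (Set (List Word))} {G' : Type} [Preorder G'] [Finite G']

/-- The words describing a test. -/
def blk {m n : ℕ} (code : Fin m × {D : Set G' // IsLowerSet D} → ℕ) (θ : Test G' m n) :
    List Word :=
  List.replicate (code (θ.1, θ.2.2)) true :: seq θ.2.1

theorem wd_seq {m n : ℕ} (z : Fin m → (Fin n → Bool)) (j : Fin m) :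
    (seq z).getD j.val [] = List.ofFn (z j) := by
  unfold seq
  rw [List.getD_eq_getElem?_getD, List.getElem?_ofFn, dif_pos j.isLt]
  rfl

/-- The set of sequences `y, block` for which the test given by the block accepts `y`. -/
def accSet {m : ℕ} (c' : List Word → G') (code : Fin m × {D : Set G' // IsLowerSet D} → ℕ) :
    Set (List Word) :=
  ⋃ tag : Fin m × {D : Set G' // IsLowerSet D},
    {u | (wd u 1).length = code tag} ∩
    {u | ((List.finRange m).map (fun j => if j = tag.1 then 0 else 2 + j.val)).map (wd u) ∈
      {v | c' v ∈ tag.2.1}}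

theorem accSet_mem (hK : NPLike K) {m : ℕ} {c' : List Word → G'} (hc' : KMap K c')
    (code : Fin m × {D : Set G' // IsLowerSet D} → ℕ) : accSet c' code ∈ K := by
  classical
  have := Fintype.ofFinite (Fin m × {D : Set G' // IsLowerSet D})
  have h1 : accSet c' code = ⋃ tag ∈ (Finset.univ : Finset (Fin m × {D : Set G' // IsLowerSet D})),
    ({u | (wd u 1).length = code tag} ∩
    {u | ((List.finRange m).map (fun j => if j = tag.1 then 0 else 2 + j.val)).map (wd u) ∈
      {v | c' v ∈ tag.2.1}}) := by
    simp [accSet]
  rw [h1]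
  refine finset_biUnion_mem hK.empty_mem hK.union _ _ (fun tag _ => ?_)
  refine hK.inter _ (hK.length 1 _) _ ?_
  exact hK.select _ (hc'.lower hK.empty_mem hK.union tag.2.2) _

theorem mem_accSet {m n : ℕ} {c' : List Word → G'}
    {code : Fin m × {D : Set G' // IsLowerSet D} → ℕ} (hcode : Function.Injective code)
    (θ : Test G' m n) (y : Fin n → Bool) :
    (List.ofFn y :: blk code θ) ∈ accSet c' code ↔ hitT c' θ y := by
  have key : ((List.finRange m).map (fun j => if j = θ.1 then 0 else 2 + j.val)).map
      (wd (List.ofFn y :: blk code θ)) = seq (Function.update θ.2.1 θ.1 y) := by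
    have hseq : ∀ z : Fin m → (Fin n → Bool),
        seq z = (List.finRange m).map (fun j => List.ofFn (z j)) := fun z => List.ofFn_eq_map
    rw [List.map_map, hseq]
    apply List.map_congr_left
    intro j _
    simp only [Function.comp_apply]
    by_cases hj : j = θ.1
    · subst hj
      rw [if_pos rfl, Function.update_self]
      rfl
    · rw [if_neg hj, Function.update_of_ne hj]
      have : wd (List.ofFn y :: blk code θ) (2 + j.val) = (seq θ.2.1).getD j.val [] := by
        unfold wd blk
        rw [Nat.add_comm 2]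
        rfl
      rw [this, wd_seq]
  unfold accSet
  simp only [Set.mem_iUnion, Set.mem_inter_iff]
  constructor
  · rintro ⟨tag, h1, h2⟩
    have h3 : code (θ.1, θ.2.2) = code tag := by
      have : (wd (List.ofFn y :: blk code θ) 1).length = code (θ.1, θ.2.2) := by
        simp [wd, blk]
      rw [← this]; exact h1
    have h4 := hcode h3
    rw [← h4] at h2
    change ((List.finRange m).map (fun j => if j = θ.1 then 0 else 2 + j.val)).map
      (wd (List.ofFn y :: blk code θ)) ∈ {v | c' v ∈ θ.2.2.1} at h2
    rw [key] at h2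
    exact h2
  · intro h
    refine ⟨(θ.1, θ.2.2), ?_, ?_⟩
    · simp [wd, blk]
    · change ((List.finRange m).map (fun j => if j = θ.1 then 0 else 2 + j.val)).map
        (wd (List.ofFn y :: blk code θ)) ∈ {v | c' v ∈ θ.2.2.1}
      rw [key]
      exact h

theorem blk_length {m n : ℕ} (code : Fin m × {D : Set G' // IsLowerSet D} → ℕ)
    (θ : Test G' m n) : (blk code θ).length = m + 1 := by
  simp [blk, seq]

/-- The threshold set of `NPLike`. -/
def thrSet (A : Set (List Word)) (p : ℕ) : Set (List Word) :=
  {u | ∃ S : Finset ℕ, S.card = (wd u 1).length ∧ ∀ s ∈ S, 2 + p * (s + 1) ≤ u.length ∧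
      (wd u 0 :: (List.range p).map (fun j => wd u (2 + p * s + j))) ∈ A}

theorem mem_thr {m n : ℕ} {c' : List Word → G'}
    {code : Fin m × {D : Set G' // IsLowerSet D} → ℕ} (hcode : Function.Injective code)
    (l : List (Test G' m n)) (τ : ℕ) (y : Fin n → Bool) :
    (List.ofFn y :: List.replicate τ true :: (l.map (blk code)).flatten) ∈
      thrSet (accSet c' code) (m + 1) ↔ τ ≤ cnt (hitT c') l y := by
  classical
  set u : List Word := List.ofFn y :: List.replicate τ true :: (l.map (blk code)).flatten with hu
  have hbl : ∀ b ∈ l.map (blk code), b.length = m + 1 := by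
    intro b hb
    obtain ⟨θ, _, rfl⟩ := List.mem_map.1 hb
    exact blk_length code θ
  have hlen : u.length = 2 + (m + 1) * l.length := by
    rw [hu, List.length_cons, List.length_cons, length_flatten_const (m + 1) _ hbl,
      List.length_map]
    omega
  have hw0 : wd u 0 = List.ofFn y := rfl
  have hw1 : wd u 1 = List.replicate τ true := rfl
  have hblock : ∀ (s : ℕ) (θ : Test G' m n), l[s]? = some θ →
      (List.range (m + 1)).map (fun j => wd u (2 + (m + 1) * s + j)) = blk code θ := by
    intro s θ hs
    apply List.ext_getElem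
    · simp [blk_length]
    · intro j h1 h2
      have hj : j < m + 1 := by simpa using h1
      simp only [List.getElem_map, List.getElem_range]
      have h3 : wd u (2 + (m + 1) * s + j) =
          (l.map (blk code)).flatten.getD ((m + 1) * s + j) [] := by
        rw [hu]
        unfold wd
        have : 2 + (m + 1) * s + j = ((m + 1) * s + j) + 1 + 1 := by omega
        rw [this]
        rfl
      rw [h3, flatten_getD [] (m + 1) _ hbl s j hj (blk code θ) (by
        rw [List.getElem?_map, hs]; rfl)]
      rw [List.getD_eq_getElem?_getD, List.getElem?_eq_getElem h2]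
      rfl
  have hcond : ∀ s : ℕ, (2 + (m + 1) * (s + 1) ≤ u.length ∧
      (wd u 0 :: (List.range (m + 1)).map (fun j => wd u (2 + (m + 1) * s + j))) ∈
        accSet c' code) ↔ (s < l.length ∧ ∃ θ, l[s]? = some θ ∧ hitT c' θ y) := by
    intro s
    rw [hlen]
    constructor
    · rintro ⟨h1, h2⟩
      have h3 : s < l.length := by
        have : (m + 1) * (s + 1) ≤ (m + 1) * l.length := by omega
        have := Nat.le_of_mul_le_mul_left this (Nat.succ_pos m)
        omega
      refine ⟨h3, l[s], List.getElem?_eq_getElem h3, ?_⟩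
      rw [hw0, hblock s l[s] (List.getElem?_eq_getElem h3), mem_accSet hcode] at h2
      exact h2
    · rintro ⟨h1, θ, h2, h3⟩
      refine ⟨?_, ?_⟩
      · have := Nat.mul_le_mul_left (m + 1) (Nat.succ_le_of_lt h1)
        simp only [Nat.succ_eq_add_one] at this
        omega
      · rw [hw0, hblock s θ h2, mem_accSet hcode]
        exact h3
  unfold thrSet
  obtain ⟨F, hF, hcnt⟩ := cnt_eq_card (hitT c') l y
  rw [hcnt]
  constructor
  · rintro ⟨S, hS, hS2⟩
    rw [hw1, List.length_replicate] at hS
    rw [← hS]
    apply Finset.card_le_card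
    intro s hs
    rw [hF]
    exact (hcond s).1 (hS2 s hs)
  · intro h
    obtain ⟨S, hS, hS2⟩ := Finset.exists_subset_card_eq h
    refine ⟨S, ?_, fun s hs => (hcond s).2 ((hF s).1 (hS hs))⟩
    rw [hw1, List.length_replicate]; exact hS2

theorem size_cons (w : Word) (u : List Word) : size (w :: u) = w.length + 1 + size u := by
  simp [size]

theorem size_append (u v : List Word) : size (u ++ v) = size u + size v := by
  simp [size]

theorem size_seq {m n : ℕ} (z : Fin m → (Fin n → Bool)) : size (seq z) = m * (n + 1) := by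
  unfold size seq
  rw [List.map_ofFn, List.sum_ofFn]
  simp

theorem size_blocks {m n : ℕ} (code : Fin m × {D : Set G' // IsLowerSet D} → ℕ) (T : ℕ)
    (hT : ∀ t, code t ≤ T) (l : List (Test G' m n)) :
    size ((l.map (blk code)).flatten) ≤ l.length * (T + 1 + m * (n + 1)) := by
  induction l with
  | nil => simp [size]
  | cons θ l ih =>
    rw [List.map_cons, List.flatten_cons, size_append, List.length_cons, Nat.succ_mul]
    have : size (blk code θ) ≤ T + 1 + m * (n + 1) := by
      unfold blk
      rw [size_cons, size_seq, List.length_replicate]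
      have := hT (θ.1, θ.2.2)
      omega
    omega

open Classical in
/-- The distributions `p` (on the words of length `n` outside `L`) and `q` (on those in `L`)
are separated by the test `θ` with gap `ε`. -/
def Gap {m n : ℕ} (c' : List Word → G') (L : Set Word) (ε : ℝ) (p q : (Fin n → Bool) → ℝ)
    (θ : Test G' m n) : Prop :=
  ∑ y ∈ slice L n with hitT c' θ y, q y + ε ≤ ∑ y ∈ slice Lᶜ n with hitT c' θ y, p y

theorem short_list {m : ℕ} (c' : List Word → G') (L : Set Word) (ε : ℝ) (hε : 0 < ε)
    (hε1 : ε ≤ 1)
    (H : ∀ n : ℕ, ∀ p q : (Fin n → Bool) → ℝ, IsProb (slice Lᶜ n) p → IsProb (slice L n) q →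
      ∃ θ : Test G' m n, Gap c' L ε p q θ) :
    ∃ C : ℕ, ∀ n : ℕ, ∃ (τ : ℕ) (l : List (Test G' m n)), l.length ≤ C * (n + 1) ∧
      τ ≤ l.length + 1 ∧ ∀ y : Fin n → Bool, List.ofFn y ∈ Lᶜ ↔ τ ≤ cnt (hitT c') l y := by
  classical
  have hq : 0 ≤ 1 - ε ^ 2 / 4 := by nlinarith
  have hq1 : 1 - ε ^ 2 / 4 < 1 := by nlinarith
  obtain ⟨C, hC⟩ := exists_pow_lt_of_lt_one (show (0:ℝ) < 1 / 4 by norm_num) hq1
  refine ⟨C, fun n => ?_⟩
  by_cases hN : (slice Lᶜ n).Nonempty
  · by_cases hY : (slice L n).Nonempty
    · have hR : ((slice Lᶜ n).card : ℝ) * (slice L n).card *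
          (1 - ε ^ 2 / 4) ^ (C * (n + 1)) < 1 := by
        have h1 : ((slice Lᶜ n).card : ℝ) ≤ 2 ^ n := by
          have : (slice Lᶜ n).card ≤ 2 ^ n := by
            refine (Finset.card_le_univ _).trans ?_
            simp
          exact_mod_cast this
        have h2 : ((slice L n).card : ℝ) ≤ 2 ^ n := by
          have : (slice L n).card ≤ 2 ^ n := by
            refine (Finset.card_le_univ _).trans ?_
            simp
          exact_mod_cast this
        have h3 : (1 - ε ^ 2 / 4) ^ (C * (n + 1)) ≤ (1 / 4 : ℝ) ^ (n + 1) := by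
          rw [pow_mul]
          exact pow_le_pow_left₀ (pow_nonneg hq _) hC.le _
        have h4 : ((slice Lᶜ n).card : ℝ) * (slice L n).card ≤ 2 ^ n * 2 ^ n :=
          mul_le_mul h1 h2 (by positivity) (by positivity)
        calc ((slice Lᶜ n).card : ℝ) * (slice L n).card * (1 - ε ^ 2 / 4) ^ (C * (n + 1))
            ≤ (2 ^ n * 2 ^ n) * (1 / 4 : ℝ) ^ (n + 1) :=
              mul_le_mul h4 h3 (pow_nonneg hq _) (by positivity)
          _ = 1 / 4 := by
              rw [← mul_pow, pow_succ, ← mul_assoc, ← mul_pow]; norm_num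
          _ < 1 := by norm_num
      obtain ⟨l, hl, hsep⟩ := sparse (hitT c') (slice Lᶜ n) (slice L n) hN hY ε hε hε1 (by
        intro p q hp hq'
        obtain ⟨θ, hθ⟩ := H n p q hp hq'
        refine ⟨θ, ?_⟩
        unfold Gap at hθ
        convert hθ) _ hR
      refine ⟨(slice L n).sup (cnt (hitT c') l) + 1, l, hl.le, ?_, fun y => ?_⟩
      · apply Nat.succ_le_succ
        apply Finset.sup_le
        intro y _
        exact cnt_le _ _ _
      · constructor
        · intro hy
          apply Nat.succ_le_of_lt
          rw [Finset.sup_lt_iff]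
          · intro y₁ hy₁
            exact hsep y (mem_slice.2 hy) y₁ hy₁
          · obtain ⟨y₁, hy₁⟩ := hY
            exact lt_of_le_of_lt (Nat.zero_le _) (hsep y (mem_slice.2 hy) y₁ hy₁)
        · intro hy hyL
          have h1 : cnt (hitT c') l y ≤ (slice L n).sup (cnt (hitT c') l) :=
            Finset.le_sup (f := cnt (hitT c') l) (mem_slice.2 hyL)
          omega
    · refine ⟨0, [], by simp, by simp, fun y => ?_⟩
      have : List.ofFn y ∉ L := fun h => hY ⟨y, mem_slice.2 h⟩
      simp [this]
  · refine ⟨1, [], by simp, by simp, fun y => ?_⟩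
    have : List.ofFn y ∉ Lᶜ := fun h => hN ⟨y, mem_slice.2 h⟩
    simp only [this, false_iff]
    simp [cnt]

/-- If no fooling pair of distributions exists, then the complement of `L` is in `K/poly`. -/
theorem inPoly_of_gap {m : ℕ} (hK : NPLike K) (c' : List Word → G') (hc' : KMap K c')
    (L : Set Word) (ε : ℝ) (hε : 0 < ε) (hε1 : ε ≤ 1)
    (H : ∀ n : ℕ, ∀ p q : (Fin n → Bool) → ℝ, IsProb (slice Lᶜ n) p → IsProb (slice L n) q →
      ∃ θ : Test G' m n, Gap c' L ε p q θ) : InPoly K Lᶜ := by
  classical
  obtain ⟨C, hC⟩ := short_list c' L ε hε hε1 H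
  choose τ l hl hτ hy using hC
  obtain ⟨T, code, hcode, hcT⟩ : ∃ (T : ℕ) (code : Fin m × {D : Set G' // IsLowerSet D} → ℕ),
      Function.Injective code ∧ ∀ t, code t ≤ T := by
    have := Fintype.ofFinite (Fin m × {D : Set G' // IsLowerSet D})
    let e := Fintype.equivFin (Fin m × {D : Set G' // IsLowerSet D})
    exact ⟨_, fun t => (e t).val, fun s t hst => e.injective (Fin.ext hst),
      fun t => (e t).isLt.le⟩
  refine ⟨thrSet (accSet c' code) (m + 1),
    hK.threshold _ (accSet_mem hK hc' code) _ (Nat.succ_pos m),
    fun n => List.replicate (τ n) true :: ((l n).map (blk code)).flatten,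
    2 + C + C * (T + 1 + m), fun n => ?_, fun y => ?_⟩
  · rw [size_cons, List.length_replicate]
    have h1 := size_blocks code T hcT (l n)
    have h2 := hl n
    have h3 := hτ n
    have h4 : (l n).length * (T + 1 + m * (n + 1)) ≤ C * (n + 1) * ((T + 1 + m) * (n + 1)) := by
      apply Nat.mul_le_mul h2
      nlinarith
    have h5 : (n + 1) ^ 2 ≤ (n + 1) ^ (2 + C + C * (T + 1 + m)) :=
      Nat.pow_le_pow_right (Nat.succ_pos n) (by omega)
    calc τ n + 1 + size ((l n).map (blk code)).flatten
        ≤ (C * (n + 1) + 2) + C * (n + 1) * ((T + 1 + m) * (n + 1)) := by omega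
      _ ≤ (2 + C + C * (T + 1 + m)) * (n + 1) ^ 2 := by
          have e1 : C * (n + 1) ≤ C * (n + 1) ^ 2 := by
            apply Nat.mul_le_mul_left; rw [pow_two]; exact Nat.le_mul_of_pos_left _ (Nat.succ_pos n)
          have e2 : 2 ≤ 2 * (n + 1) ^ 2 := by
            have : 0 < (n + 1) ^ 2 := pow_pos (Nat.succ_pos n) 2
            omega
          have e3 : C * (n + 1) * ((T + 1 + m) * (n + 1)) = C * (T + 1 + m) * (n + 1) ^ 2 := by
            ring
          rw [e3, Nat.add_mul, Nat.add_mul]
          omega
      _ ≤ _ := Nat.mul_le_mul_left _ h5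
  · have h1 := hy y.length (fun i => y.get i)
    rw [← mem_thr hcode] at h1
    simp only [List.get_eq_getElem, List.ofFn_getElem] at h1
    exact h1

end

end Pool.Agent.Lib.EC4075
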