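import Pool.Agent.Lib.MP_4075bc_lc.Exact

/-! # Rounding a stochastically monotone selection to multisets -/

namespace Pool.Agent.Lib.EC4075

open Finset

/-- Finitely many integral linear forms: a real point can be replaced by an integral point
without changing signs. -/
theorem integral_point {ι J : Type} [Fintype ι] [Finite J] (a : J → ι → ℤ) (v : ι → ℝ) :
    ∃ w : ι → ℤ, ∀ j, ((∑ i, (a j i : ℝ) * v i = 0) → ∑ i, a j i * w i = 0) ∧
      ((0 < ∑ i, (a j i : ℝ) * v i) → 0 < ∑ i, a j i * w i) := by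
  classical
  have := Fintype.ofFinite J
  let V : Submodule ℚ ℝ := Submodule.span ℚ (Set.range v)
  have hfin : FiniteDimensional ℚ V := FiniteDimensional.span_of_finite ℚ (Set.finite_range v)
  let b := Module.finBasis ℚ V
  let vv : ι → V := fun i => ⟨v i, Submodule.subset_span ⟨i, rfl⟩⟩
  let q : ι → Fin (Module.finrank ℚ V) → ℚ := fun i l => b.repr (vv i) l
  have hv : ∀ i, v i = ∑ l, (q i l : ℝ) * ((b l : V) : ℝ) := by
    intro i
    have h1 := b.sum_repr (vv i)
    have h2 := congrArg (fun z : V => (z : ℝ)) h1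
    simp only [Submodule.coe_sum, Submodule.coe_smul] at h2
    have h3 : v i = ((vv i : V) : ℝ) := rfl
    rw [h3, ← h2]
    apply Finset.sum_congr rfl
    intro l _
    rw [Rat.smul_def]
  -- coefficients of the forms
  let co : J → Fin (Module.finrank ℚ V) → ℚ := fun j l => ∑ i, (a j i : ℚ) * q i l
  have hform : ∀ j, ∑ i, (a j i : ℝ) * v i = ∑ l, (co j l : ℝ) * ((b l : V) : ℝ) := by
    intro j
    simp only [co]
    push_cast
    simp only [Finset.sum_mul]
    rw [Finset.sum_comm]
    apply Finset.sum_congr rfl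
    intro i _
    rw [hv i, Finset.mul_sum]
    apply Finset.sum_congr rfl
    intro l _
    ring
  have hzero : ∀ j, ∑ i, (a j i : ℝ) * v i = 0 → ∀ l, co j l = 0 := by
    intro j hj l
    have h1 : ∑ i, (a j i : ℚ) • vv i = 0 := by
      apply Subtype.ext
      rw [Submodule.coe_sum]
      simp only [Submodule.coe_smul, Submodule.coe_zero]
      rw [← hj]
      apply Finset.sum_congr rfl
      intro i _
      rw [Rat.smul_def]
      push_cast
      rfl
    have h2 := congrArg (fun z => b.repr z l) h1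
    simp only [map_sum, map_smul, map_zero, Finsupp.coe_finset_sum, Finset.sum_apply,
      Finsupp.smul_apply, smul_eq_mul, Finsupp.coe_zero, Pi.zero_apply] at h2
    exact h2
  -- a rational point
  let U : Set (Fin (Module.finrank ℚ V) → ℝ) :=
    ⋂ j : {j : J // 0 < ∑ i, (a j i : ℝ) * v i}, {c | 0 < ∑ l, (co j.1 l : ℝ) * c l}
  have hU : IsOpen U := by
    apply isOpen_iInter_of_finite
    intro j
    apply isOpen_lt continuous_const
    exact continuous_finset_sum _ (fun l _ => continuous_const.mul (continuous_apply l))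
  have hUb : (fun l => ((b l : V) : ℝ)) ∈ U := by
    rw [Set.mem_iInter]
    intro j
    change 0 < ∑ l, (co j.1 l : ℝ) * ((b l : V) : ℝ)
    rw [← hform]
    exact j.2
  have hdense : DenseRange (Pi.map (fun (_ : Fin (Module.finrank ℚ V)) (x : ℚ) => (x : ℝ))) :=
    DenseRange.piMap (fun _ => Rat.denseRange_cast)
  obtain ⟨c, hcU⟩ := hdense.exists_mem_open hU ⟨_, hUb⟩
  -- clear denominators
  let u : ι → ℚ := fun i => ∑ l, q i l * c l
  let N : ℕ := ∏ i, (u i).den
  have hN : 0 < N := Finset.prod_pos (fun i _ => (u i).den_pos)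
  have hint : ∀ i, ∃ w : ℤ, (w : ℚ) = N * u i := by
    intro i
    obtain ⟨d, hd⟩ := Finset.dvd_prod_of_mem (fun i => (u i).den) (Finset.mem_univ i)
    refine ⟨d * (u i).num, ?_⟩
    have h1 : (N : ℚ) = (u i).den * d := by
      have : N = (u i).den * d := hd
      exact_mod_cast this
    rw [h1]
    push_cast
    have h2 := Rat.mul_den_eq_num (u i)
    rw [← h2]
    ring
  choose w hw using hint
  have hwsum : ∀ j, ((∑ i, a j i * w i : ℤ) : ℚ) = N * ∑ l, co j l * c l := by
    intro j
    push_cast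
    simp only [hw, u, co]
    simp only [Finset.mul_sum, Finset.sum_mul]
    rw [Finset.sum_comm]
    apply Finset.sum_congr rfl
    intro i _
    apply Finset.sum_congr rfl
    intro l _
    ring
  refine ⟨w, fun j => ⟨fun hj => ?_, fun hj => ?_⟩⟩
  · have h1 := hwsum j
    have h2 : ∑ l, co j l * c l = 0 := Finset.sum_eq_zero (fun l _ => by rw [hzero j hj l, zero_mul])
    rw [h2, mul_zero] at h1
    exact_mod_cast h1
  · have h1 := hwsum j
    have h2 : 0 < ∑ l, co j l * c l := by
      have h3 := Set.mem_iInter.1 hcU ⟨j, hj⟩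
      change 0 < ∑ l, (co j l : ℝ) * ((c l : ℚ) : ℝ) at h3
      exact_mod_cast h3
    have h4 : (0 : ℚ) < ((∑ i, a j i * w i : ℤ) : ℚ) := by
      rw [h1]; exact mul_pos (by exact_mod_cast hN) h2
    exact_mod_cast h4

end Pool.Agent.Lib.EC4075

namespace Pool.Agent.Lib.EC4075

open Finset

open Classical in
theorem sum_pick {R G G' : Type} [CommRing R] [Fintype G] [Fintype G'] (x : G) (D : Set G')
    (v : G × G' → R) :
    ∑ i : G × G', (if i.1 = x ∧ i.2 ∈ D then (1 : R) else 0) * v i =
      ∑ g with g ∈ D, v (x, g) := by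
  rw [Fintype.sum_prod_type, Finset.sum_eq_single x]
  · rw [Finset.sum_filter]
    apply Finset.sum_congr rfl
    intro g _
    by_cases hg : g ∈ D <;> simp [hg]
  · intro y _ hy
    apply Finset.sum_eq_zero
    intro g _
    simp [hy]
  · intro h; exact absurd (Finset.mem_univ x) h

open Classical in
/-- Integral multiplicities. -/
theorem counts {G G' : Type} [Preorder G] [Finite G] [Nonempty G] [Preorder G'] [Fintype G']
    (A : G → G' → Prop) (π : G → G' → ℝ) (hπ : StochSel A π)
    (hmono : ∀ x x', x ≤ x' → ∀ D : Set G', IsLowerSet D → mass (π x') D ≤ mass (π x) D) :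
    ∃ (n : ℕ) (k : G → G' → ℕ), 0 < n ∧ (∀ x, ∑ g, k x g = n) ∧
      (∀ x g, k x g ≠ 0 → A x g) ∧
      ∀ x x', x ≤ x' → ∀ D : Set G', IsLowerSet D →
        ∑ g with g ∈ D, k x' g ≤ ∑ g with g ∈ D, k x g := by
  have := Fintype.ofFinite G
  let a : (G × G') ⊕ (G × G × Set G') → G × G' → ℤ := fun j i =>
    match j with
    | Sum.inl p => if i = p then 1 else 0
    | Sum.inr (x, x', D) => (if i.1 = x ∧ i.2 ∈ D then 1 else 0) -
        (if i.1 = x' ∧ i.2 ∈ D then 1 else 0)
  obtain ⟨w, hw⟩ := integral_point a (fun i => π i.1 i.2)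
  have e1 : ∀ x g, ∑ i, (a (Sum.inl (x, g)) i : ℝ) * π i.1 i.2 = π x g := by
    intro x g
    rw [Finset.sum_eq_single (x, g)]
    · simp [a]
    · intro i _ hi
      simp [a, hi]
    · intro h; exact absurd (Finset.mem_univ _) h
  have e1' : ∀ x g, ∑ i, a (Sum.inl (x, g)) i * w i = w (x, g) := by
    intro x g
    rw [Finset.sum_eq_single (x, g)]
    · simp [a]
    · intro i _ hi
      simp [a, hi]
    · intro h; exact absurd (Finset.mem_univ _) h
  have e2 : ∀ x x' D, ∑ i, (a (Sum.inr (x, x', D)) i : ℝ) * π i.1 i.2 =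
      mass (π x) D - mass (π x') D := by
    intro x x' D
    unfold mass
    rw [← sum_pick x D (fun i : G × G' => π i.1 i.2), ← sum_pick x' D (fun i : G × G' => π i.1 i.2),
      ← Finset.sum_sub_distrib]
    apply Finset.sum_congr rfl
    intro i _
    simp only [a]
    push_cast
    ring
  have e2' : ∀ x x' D, ∑ i, a (Sum.inr (x, x', D)) i * w i =
      ∑ g with g ∈ D, w (x, g) - ∑ g with g ∈ D, w (x', g) := by
    intro x x' D
    rw [← sum_pick x D w, ← sum_pick x' D w, ← Finset.sum_sub_distrib]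
    apply Finset.sum_congr rfl
    intro i _
    simp only [a]
    ring
  have hpos : ∀ x g, (π x g = 0 → w (x, g) = 0) ∧ (0 < π x g → 0 < w (x, g)) := by
    intro x g
    have h1 := hw (Sum.inl (x, g))
    rw [e1, e1'] at h1
    exact h1
  have hnn : ∀ x g, 0 ≤ w (x, g) := by
    intro x g
    rcases (hπ.1 x g).eq_or_lt with h | h
    · rw [(hpos x g).1 h.symm]
    · exact ((hpos x g).2 h).le
  have hkw : ∀ x g, (((w (x, g)).toNat : ℕ) : ℤ) = w (x, g) := fun x g => Int.toNat_of_nonneg (hnn x g)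
  have hmono' : ∀ x x' D, mass (π x') D ≤ mass (π x) D →
      ∑ g with g ∈ D, w (x', g) ≤ ∑ g with g ∈ D, w (x, g) := by
    intro x x' D h
    have h1 := hw (Sum.inr (x, x', D))
    rw [e2, e2'] at h1
    rcases (sub_nonneg.2 h).eq_or_lt with h2 | h2
    · have := h1.1 h2.symm; omega
    · have := h1.2 h2; omega
  have hcast : ∀ (x : G) (D : Set G'), ((∑ g with g ∈ D, (w (x, g)).toNat : ℕ) : ℤ) = ∑ g with g ∈ D, w (x, g) := by
    intro x D
    push_cast
    apply Finset.sum_congr rfl
    intro g _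
    exact hkw x g
  have hmonoN : ∀ (x x' : G) (D : Set G'), mass (π x') D ≤ mass (π x) D →
      ∑ g with g ∈ D, (w (x', g)).toNat ≤ ∑ g with g ∈ D, (w (x, g)).toNat := by
    intro x x' D h
    have h1 := hmono' x x' D h
    rw [← hcast, ← hcast] at h1
    exact_mod_cast h1
  have hmass1 : ∀ x, mass (π x) Set.univ = 1 := by
    intro x
    unfold mass
    simp only [Set.mem_univ, Finset.filter_true]
    exact hπ.2.1 x
  obtain ⟨x₀⟩ := ‹Nonempty G›
  refine ⟨∑ g, (w (x₀, g)).toNat, fun x g => (w (x, g)).toNat, ?_, fun x => ?_, fun x g hg => ?_,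
    fun x x' hxx D hD => hmonoN x x' D (hmono x x' hxx D hD)⟩
  · have h1 : ∑ g, π x₀ g ≠ 0 := by rw [hπ.2.1]; norm_num
    obtain ⟨g, _, hg⟩ := Finset.exists_ne_zero_of_sum_ne_zero h1
    have h2 := (hpos x₀ g).2 (lt_of_le_of_ne (hπ.1 x₀ g) (Ne.symm hg))
    apply Finset.sum_pos'
    · intro _ _; exact Nat.zero_le _
    · exact ⟨g, Finset.mem_univ g, by omega⟩
  · have h1 := hmonoN x x₀ Set.univ (by rw [hmass1, hmass1])
    have h2 := hmonoN x₀ x Set.univ (by rw [hmass1, hmass1])
    simp only [Set.mem_univ, Finset.filter_true] at h1 h2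
    exact le_antisymm h2 h1
  · apply hπ.2.2
    intro h0
    apply hg
    show (w (x, g)).toNat = 0
    rw [(hpos x g).1 h0]
    rfl

open Classical in
/-- A tuple with given multiplicities. -/
theorem exists_tuple {G' : Type} [Fintype G'] (n : ℕ) (k : G' → ℕ) (hk : ∑ g, k g = n) :
    ∃ y : Fin n → G', (∀ i, k (y i) ≠ 0) ∧
      ∀ D : Set G', (Finset.univ.filter (fun i => y i ∈ D)).card = ∑ g with g ∈ D, k g := by
  have hcard : Fintype.card (Σ g, Fin (k g)) = n := by
    rw [Fintype.card_sigma]; simpa using hk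
  let e : (Σ g, Fin (k g)) ≃ Fin n := Fintype.equivFinOfCardEq hcard
  refine ⟨fun i => (e.symm i).1, fun i => ?_, fun D => ?_⟩
  · have := (e.symm i).2.isLt
    show k (e.symm i).1 ≠ 0
    exact Nat.ne_of_gt (Nat.lt_of_le_of_lt (Nat.zero_le _) this)
  · have h1 : (Finset.univ.filter (fun i => (e.symm i).1 ∈ D)).card =
        (Finset.univ.filter (fun s : Σ g, Fin (k g) => s.1 ∈ D)).card := by
      apply Finset.card_equiv e.symm
      intro i
      simp
    rw [h1]
    have h2 : (Finset.univ.filter (fun s : Σ g, Fin (k g) => s.1 ∈ D)) =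
        (Finset.univ.filter (fun g => g ∈ D)).sigma (fun g => (Finset.univ : Finset (Fin (k g)))) := by
      ext s; simp
    rw [h2, Finset.card_sigma]
    simp

open Classical in
/-- Integral dominance gives a matching (Hall). -/
theorem matching {G' : Type} [Preorder G'] (n : ℕ) (y y' : Fin n → G')
    (h : ∀ D : Set G', IsLowerSet D → (Finset.univ.filter (fun i => y' i ∈ D)).card ≤
      (Finset.univ.filter (fun i => y i ∈ D)).card) :
    ∃ σ : Equiv.Perm (Fin n), ∀ i, y (σ i) ≤ y' i := by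
  obtain ⟨f, hf, hf2⟩ := (Finset.all_card_le_biUnion_card_iff_exists_injective
    (fun j : Fin n => Finset.univ.filter (fun i => y i ≤ y' j))).1 (by
    intro s
    obtain ⟨D, hD⟩ : ∃ D : Set G', ∀ g, g ∈ D ↔ ∃ j ∈ s, g ≤ y' j :=
      ⟨{g | ∃ j ∈ s, g ≤ y' j}, fun g => Iff.rfl⟩
    have h1 := h D (fun a b hba ha => by
      rw [hD] at ha ⊢
      obtain ⟨j, hj, haj⟩ := ha
      exact ⟨j, hj, hba.trans haj⟩)
    have h2 : s.card ≤ (Finset.univ.filter (fun i => y' i ∈ D)).card := by
      apply Finset.card_le_card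
      intro j hj
      simp only [Finset.mem_filter, Finset.mem_univ, true_and]
      rw [hD]
      exact ⟨j, hj, le_rfl⟩
    refine (h2.trans h1).trans (Finset.card_le_card ?_)
    intro i hi
    simp only [Finset.mem_filter, Finset.mem_univ, true_and] at hi
    rw [hD] at hi
    obtain ⟨j, hj, hij⟩ := hi
    simp only [Finset.mem_biUnion, Finset.mem_filter, Finset.mem_univ, true_and]
    exact ⟨j, hj, hij⟩)
  refine ⟨Equiv.ofBijective f (Finite.injective_iff_bijective.1 hf), fun i => ?_⟩
  have := hf2 i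
  simpa using this

/-- `(G', f')` has symmetric monotone operations of all arities which preserve the labels. -/
def SymmOps {G' : Type} [Preorder G'] {k : ℕ} (f' : G' → Fin k) : Prop :=
  ∀ n : ℕ, 0 < n → ∃ t : (Fin n → G') → G', Monotone t ∧
    (∀ (σ : Equiv.Perm (Fin n)) (y : Fin n → G'), t (fun i => y (σ i)) = t y) ∧
    ∀ (c : Fin k) (y : Fin n → G'), (∀ i, f' (y i) = c) → f' (t y) = c

theorem emb_of_symm {G G' : Type} [Lattice G] [BoundedOrder G] [Finite G] [Lattice G']
    [Fintype G'] {k : ℕ} (f : G → Fin k) (f' : G' → Fin k) (hs : SymmOps f')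
    (π : G → G' → ℝ) (hπ : StochSel (fun x y => f' y = f x) π)
    (hmono : ∀ x x', x ≤ x' → ∀ D : Set G', IsLowerSet D → mass (π x') D ≤ mass (π x) D) :
    Emb f f' := by
  classical
  obtain ⟨n, κ, hn, hsum, hA, hD⟩ := counts _ π hπ hmono
  choose y hy1 hy2 using fun x => exists_tuple n (κ x) (hsum x)
  obtain ⟨t, ht1, ht2, ht3⟩ := hs n hn
  refine ⟨fun x => t (y x), fun x x' hxx => ?_, fun x => ht3 (f x) (y x) (fun i => hA x _ (hy1 x i))⟩
  obtain ⟨σ, hσ⟩ := matching n (y x) (y x') (fun D hD' => by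
    have h1 := hD x x' hxx D hD'
    rw [← hy2 x D, ← hy2 x' D] at h1
    exact h1)
  calc t (y x) = t (fun i => y x (σ i)) := (ht2 σ (y x)).symm
    _ ≤ t (y x') := ht1 hσ

end Pool.Agent.Lib.EC4075
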