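import Pool.Agent.Lib.MP_4075bc_lc.Fool

/-! # From fooling distributions to a stochastically monotone selection -/

namespace Pool.Agent.Lib.EC4075

open Finset

section
variable {m : ℕ} {X : Type} [Fintype X]

/-- Expectation of `h` under product weights. -/
noncomputable def Ex (w : Fin m → X → ℝ) (h : (Fin m → X) → ℝ) : ℝ :=
  ∑ z : Fin m → X, (∏ i, w i (z i)) * h z

theorem Ex_split (i : Fin m) (w : Fin m → X → ℝ) (h : (Fin m → X) → ℝ) :
    Ex w h = ∑ r : {j // j ≠ i} → X, (∏ j, w j.1 (r j)) *
      ∑ y : X, w i y * h ((Equiv.funSplitAt i X).symm (y, r)) := by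
  unfold Ex
  rw [← Equiv.sum_comp (Equiv.funSplitAt i X).symm, Fintype.sum_prod_type_right]
  apply Finset.sum_congr rfl
  intro r _
  rw [Finset.mul_sum]
  apply Finset.sum_congr rfl
  intro y _
  rw [Fintype.prod_eq_mul_prod_subtype_ne _ i]
  have h1 : ((Equiv.funSplitAt i X).symm (y, r)) i = y := by
    simp [Equiv.funSplitAt]
  have h2 : ∀ j : {j // j ≠ i}, ((Equiv.funSplitAt i X).symm (y, r)) j.1 = r j := by
    intro j
    simp [Equiv.funSplitAt, j.2]
  rw [h1]
  have h3 : (∏ j : {j // j ≠ i}, w j.1 (((Equiv.funSplitAt i X).symm (y, r)) j.1)) =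
      ∏ j : {j // j ≠ i}, w j.1 (r j) := Finset.prod_congr rfl (fun j _ => by rw [h2 j])
  rw [h3]
  ring

theorem sum_prod_one {ι : Type} [Fintype ι] [DecidableEq ι] (w : ι → X → ℝ)
    (h1 : ∀ i, ∑ y, w i y = 1) : ∑ z : ι → X, ∏ i, w i (z i) = 1 := by
  have := Finset.prod_univ_sum (fun _ : ι => (Finset.univ : Finset X)) (fun i y => w i y)
  rw [Fintype.piFinset_univ] at this
  rw [← this]
  exact Finset.prod_eq_one (fun i _ => h1 i)

theorem Ex_hybrid [Nonempty X] (i : Fin m) (w w' : Fin m → X → ℝ) (h : (Fin m → X) → ℝ)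
    (hw0 : ∀ j y, 0 ≤ w j y) (hw1 : ∀ j, ∑ y, w j y = 1) (hww : ∀ j, j ≠ i → w' j = w j)
    (ε : ℝ) (hε : ∀ z : Fin m → X, ∑ y, w' i y * h (Function.update z i y) ≤
      ∑ y, w i y * h (Function.update z i y) + ε) :
    Ex w' h ≤ Ex w h + ε := by
  classical
  obtain ⟨y₀⟩ := ‹Nonempty X›
  have hsym : ∀ (r : {j // j ≠ i} → X) (y : X), (Equiv.funSplitAt i X).symm (y, r) =
      Function.update ((Equiv.funSplitAt i X).symm (y₀, r)) i y := by
    intro r y
    funext j
    by_cases hj : j = i
    · subst hj
      simp [Equiv.funSplitAt]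
    · rw [Function.update_of_ne hj]
      simp [Equiv.funSplitAt, hj]
  rw [Ex_split i w', Ex_split i w]
  have h1 : ∑ r : {j // j ≠ i} → X, (∏ j, w j.1 (r j)) = 1 :=
    sum_prod_one (fun j : {j // j ≠ i} => w j.1) (fun j => hw1 j.1)
  calc ∑ r : {j // j ≠ i} → X, (∏ j, w' j.1 (r j)) *
        ∑ y : X, w' i y * h ((Equiv.funSplitAt i X).symm (y, r))
      ≤ ∑ r : {j // j ≠ i} → X, ((∏ j, w j.1 (r j)) *
        (∑ y : X, w i y * h ((Equiv.funSplitAt i X).symm (y, r)) + ε)) := by
        apply Finset.sum_le_sum
        intro r _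
        have h2 : (∏ j : {j // j ≠ i}, w' j.1 (r j)) = ∏ j : {j // j ≠ i}, w j.1 (r j) :=
          Finset.prod_congr rfl (fun j _ => by rw [hww j.1 j.2])
        rw [h2]
        apply mul_le_mul_of_nonneg_left _ (Finset.prod_nonneg (fun j _ => hw0 _ _))
        have h3 := hε ((Equiv.funSplitAt i X).symm (y₀, r))
        have e : ∀ (v : Fin m → X → ℝ), ∑ y, v i y * h ((Equiv.funSplitAt i X).symm (y, r)) =
            ∑ y, v i y * h (Function.update ((Equiv.funSplitAt i X).symm (y₀, r)) i y) :=
          fun v => Finset.sum_congr rfl (fun y _ => by rw [hsym r y])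
        rw [e w', e w]
        exact h3
    _ = ∑ r : {j // j ≠ i} → X, (∏ j, w j.1 (r j)) *
        ∑ y : X, w i y * h ((Equiv.funSplitAt i X).symm (y, r)) + ε := by
        simp only [mul_add, Finset.sum_add_distrib]
        rw [← Finset.sum_mul, h1, one_mul]

end

/-- A stochastic selection: `π x` is a probability distribution on the points related to `x`. -/
def StochSel {G G' : Type} [Fintype G'] (A : G → G' → Prop) (π : G → G' → ℝ) : Prop :=
  (∀ x g, 0 ≤ π x g) ∧ (∀ x, ∑ g, π x g = 1) ∧ ∀ x g, π x g ≠ 0 → A x g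

open Classical in
/-- Mass of a set. -/
noncomputable def mass {G' : Type} [Fintype G'] (μ : G' → ℝ) (D : Set G') : ℝ :=
  ∑ g with g ∈ D, μ g

/-- The Boolean type of a sequence of words with respect to `L`. -/
noncomputable def typ (L : Set Word) (m : ℕ) (u : List Word) : Fin m → Fin 2 :=
  open Classical in fun i => if wd u i.val ∈ L then 0 else 1

theorem typ_kmap {K : Set (Set (List Word))} (hK : NPLike K) {L : Set Word}
    (hL : {u | wd u 0 ∈ L} ∈ K) (m : ℕ) : KMap K (typ L m) := by
  classical
  apply KMap.pi hK.univ_mem hK.inter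
  intro i a
  have h1 : {u | wd u i.val ∈ L} ∈ K := by
    have := hK.select _ hL [i.val]
    have h2 : {u | ([i.val].map (wd u)) ∈ {u | wd u 0 ∈ L}} = {u | wd u i.val ∈ L} := by
      ext u; simp [wd]
    rw [h2] at this
    exact this
  by_cases ha : a = 0
  · have : {u | typ L m u i ≤ a} = {u | wd u i.val ∈ L} := by
      ext u
      subst ha
      unfold typ
      by_cases h : wd u i.val ∈ L <;> simp [h]
    rw [this]; exact h1
  · have : {u | typ L m u i ≤ a} = Set.univ := by
      have ha1 : a = 1 := by omega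
      subst ha1
      ext u
      simp only [Set.mem_univ, iff_true, Set.mem_ofPred_eq]
      exact Fin.le_last _
    rw [this]; exact hK.univ_mem

theorem typ_seq {L : Set Word} {m n : ℕ} (z : Fin m → (Fin n → Bool)) (i : Fin m) :
    typ L m (seq z) i = 0 ↔ List.ofFn (z i) ∈ L := by
  classical
  unfold typ
  have : wd (seq z) i.val = List.ofFn (z i) := wd_seq z i
  rw [this]
  by_cases h : List.ofFn (z i) ∈ L <;> simp [h]

open Classical in
/-- The weights on words of length `n` used for the value `b` of a coordinate. -/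
noncomputable def wt {n : ℕ} (L : Set Word) (p q : (Fin n → Bool) → ℝ) (b : Fin 2)
    (y : Fin n → Bool) : ℝ :=
  if b = 0 then (if y ∈ slice L n then q y else 0) else (if y ∈ slice Lᶜ n then p y else 0)

open Classical in
theorem approx {K : Set (Set (List Word))} (hK : NPLike K) {L : Set Word}
    (hLc : ¬ InPoly K Lᶜ) {G' : Type} [Preorder G'] [Fintype G'] {m : ℕ}
    {c' : List Word → G'} (hc' : KMap K c') (A : (Fin m → Fin 2) → G' → Prop)
    (hA : ∀ u, A (typ L m u) (c' u)) (ε : ℝ) (hε : 0 < ε) (hε1 : ε ≤ 1) :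
    ∃ π : (Fin m → Fin 2) → G' → ℝ, StochSel A π ∧
      ∀ x i, x i = 0 → ∀ D : Set G', IsLowerSet D →
        mass (π (Function.update x i 1)) D ≤ mass (π x) D + ε := by
  obtain ⟨n, p, q, hp, hq, hgap⟩ : ∃ (n : ℕ) (p q : (Fin n → Bool) → ℝ),
      IsProb (slice Lᶜ n) p ∧ IsProb (slice L n) q ∧ ∀ θ : Test G' m n, ¬ Gap c' L ε p q θ := by
    by_contra hcon
    push Not at hcon
    exact hLc (inPoly_of_gap hK c' hc' L ε hε hε1 hcon)
  have hw0 : ∀ b y, 0 ≤ wt L p q b y := by
    intro b y
    unfold wt
    split_ifs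
    · exact hq.1 y
    · exact le_rfl
    · exact hp.1 y
    · exact le_rfl
  have hw1 : ∀ b, ∑ y, wt L p q b y = 1 := by
    intro b
    unfold wt
    by_cases hb : b = 0
    · simp only [hb, if_true]
      rw [← Finset.sum_filter]
      have : Finset.univ.filter (fun y => y ∈ slice L n) = slice L n := by
        ext y; simp
      rw [this]; exact hq.2
    · simp only [hb, if_false]
      rw [← Finset.sum_filter]
      have : Finset.univ.filter (fun y => y ∈ slice Lᶜ n) = slice Lᶜ n := by
        ext y; simp
      rw [this]; exact hp.2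
  let π : (Fin m → Fin 2) → G' → ℝ := fun x g =>
    Ex (fun i => wt L p q (x i)) (fun z => if c' (seq z) = g then 1 else 0)
  have hmass : ∀ x (D : Set G'), mass (π x) D =
      Ex (fun i => wt L p q (x i)) (fun z => if c' (seq z) ∈ D then 1 else 0) := by
    intro x D
    unfold mass
    simp only [π, Ex]
    rw [Finset.sum_comm]
    apply Finset.sum_congr rfl
    intro z _
    rw [← Finset.mul_sum]
    congr 1
    rw [Finset.sum_ite_eq]
    simp
  refine ⟨π, ⟨?_, ?_, ?_⟩, ?_⟩
  · intro x g
    apply Finset.sum_nonneg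
    intro z _
    apply mul_nonneg (Finset.prod_nonneg (fun i _ => hw0 _ _))
    dsimp only
    split_ifs <;> norm_num
  · intro x
    have h1 := hmass x Set.univ
    unfold mass at h1
    simp only [Set.mem_univ, Finset.filter_true, if_true] at h1
    rw [h1]
    unfold Ex
    simp only [mul_one]
    exact sum_prod_one _ (fun i => hw1 (x i))
  · intro x g hg
    simp only [π, Ex] at hg
    obtain ⟨z, _, hz⟩ := Finset.exists_ne_zero_of_sum_ne_zero hg
    have h1 : (∏ i, wt L p q (x i) (z i)) ≠ 0 := left_ne_zero_of_mul hz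
    have h2 : (if c' (seq z) = g then (1:ℝ) else 0) ≠ 0 := right_ne_zero_of_mul hz
    have h3 : c' (seq z) = g := by
      by_contra h; exact h2 (if_neg h)
    have h4 : typ L m (seq z) = x := by
      funext i
      have h5 := Finset.prod_ne_zero_iff.1 h1 i (Finset.mem_univ i)
      unfold wt at h5
      by_cases hb : x i = 0
      · rw [if_pos hb] at h5
        have h6 : z i ∈ slice L n := by
          by_contra h; exact h5 (if_neg h)
        rw [hb, typ_seq]
        exact mem_slice.1 h6
      · rw [if_neg hb] at h5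
        have h6 : z i ∈ slice Lᶜ n := by
          by_contra h; exact h5 (if_neg h)
        have h7 : List.ofFn (z i) ∈ Lᶜ := mem_slice.1 h6
        have h8 : typ L m (seq z) i ≠ 0 := fun h => h7 ((typ_seq z i).1 h)
        omega
    have h5 := hA (seq z)
    rw [h4, h3] at h5
    exact h5
  · intro x i hi D hD
    rw [hmass, hmass]
    refine Ex_hybrid i (fun j => wt L p q (x j)) (fun j => wt L p q (Function.update x i 1 j)) _
      (fun j y => hw0 _ _) (fun j => hw1 _) ?_ ε ?_
    · intro j hj
      simp only [Function.update_of_ne hj]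
    · intro z
      have h1 := hgap (i, z, ⟨D, hD⟩)
      unfold Gap at h1
      push Not at h1
      have e1 : ∑ y, wt L p q (x i) y * (if c' (seq (Function.update z i y)) ∈ D then (1:ℝ) else 0) =
          ∑ y ∈ slice L n with hitT c' (i, z, ⟨D, hD⟩) y, q y := by
        unfold wt
        simp only [hi, if_true]
        rw [Finset.sum_filter, ← Finset.sum_filter_add_sum_filter_not Finset.univ
          (fun y => y ∈ slice L n)]
        have e2 : ∑ y with ¬ y ∈ slice L n, (if y ∈ slice L n then q y else 0) *
            (if c' (seq (Function.update z i y)) ∈ D then (1:ℝ) else 0) = 0 := by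
          apply Finset.sum_eq_zero
          intro y hy
          rw [if_neg (Finset.mem_filter.1 hy).2, zero_mul]
        rw [e2, add_zero]
        have e3 : Finset.univ.filter (fun y => y ∈ slice L n) = slice L n := by
          ext y; simp
        rw [e3]
        apply Finset.sum_congr rfl
        intro y hy
        rw [if_pos hy]
        unfold hitT
        simp
      have e4 : ∑ y, wt L p q (Function.update x i 1 i) y *
          (if c' (seq (Function.update z i y)) ∈ D then (1:ℝ) else 0) =
          ∑ y ∈ slice Lᶜ n with hitT c' (i, z, ⟨D, hD⟩) y, p y := by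
        unfold wt
        simp only [Function.update_self, one_ne_zero, if_false]
        rw [Finset.sum_filter, ← Finset.sum_filter_add_sum_filter_not Finset.univ
          (fun y => y ∈ slice Lᶜ n)]
        have e2 : ∑ y with ¬ y ∈ slice Lᶜ n, (if y ∈ slice Lᶜ n then p y else 0) *
            (if c' (seq (Function.update z i y)) ∈ D then (1:ℝ) else 0) = 0 := by
          apply Finset.sum_eq_zero
          intro y hy
          rw [if_neg (Finset.mem_filter.1 hy).2, zero_mul]
        rw [e2, add_zero]
        have e3 : Finset.univ.filter (fun y => y ∈ slice Lᶜ n) = slice Lᶜ n := by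
          ext y; simp
        rw [e3]
        apply Finset.sum_congr rfl
        intro y hy
        rw [if_pos hy]
        unfold hitT
        simp
      rw [e1, e4]
      exact h1.le

end Pool.Agent.Lib.EC4075
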